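import Pool.Agent.W_7d29a1_X.Path89
import Pool.Agent.W_7d29a1_X50.MomX
import Pool.Agent.W_7d29a1_X97.ESU

/-!
STORM X (MP_7d29a1_pr), assembly of (ES): the nodes of the forest. Cost and price of a block of the path, the marginals of
the quenched law of the path, measurability and integrability. (helper27)
-/

namespace Pool.Agent.W_7d29a1_XT

open Finset MeasureTheory ProbabilityTheory
open Pool.Agent.W_7d29a1_F Pool.Agent.W_7d29a1_X Pool.Agent.W_7d29a1_X50 Pool.Agent.W_7d29a1_G
open Pool.Agent.W_7d29a1_SR (In)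

noncomputable section

/-- The price of the displacement `y` in the time `n`. -/
def Phn (μ : Measure ℝ) (n : ℕ) (y : ℤ) : ℝ := n * J μ (((y : ℝ) - n / 2) / n)

/-- The displacement of the path `S` in the block `(a, a + n]`. -/
def dsp (a n : ℕ) (S : Finset ℕ) : ℤ := pos S (a + n) - pos S a

/-- The cost of the block `(a, a + n]` of the path `S`. -/
def XC (μ : Measure ℝ) (a n : ℕ) (η : Env) (S : Finset ℕ) : ℝ := X μ 0 η ((a : ℤ), pos S a) n (dsp a n S)

theorem dsp_nonneg (a n : ℕ) (S : Finset ℕ) : 0 ≤ dsp a n S := by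
  unfold dsp pos
  have h : (S ∩ range a).card ≤ (S ∩ range (a + n)).card :=
    card_le_card (inter_subset_inter (Finset.Subset.refl _) (range_subset_range.2 (by omega)))
  have h' : ((S ∩ range a).card : ℤ) ≤ ((S ∩ range (a + n)).card : ℤ) := by exact_mod_cast h
  linarith

theorem dsp_le (a n : ℕ) (S : Finset ℕ) : dsp a n S ≤ n := by
  unfold dsp pos
  have h1 : S ∩ range (a + n) ⊆ (S ∩ range a) ∪ Ico a (a + n) := by
    intro x hx
    rw [mem_inter, mem_range] at hx
    rw [mem_union, mem_inter, mem_range, mem_Ico]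
    by_cases h : x < a
    · exact Or.inl ⟨hx.1, h⟩
    · exact Or.inr ⟨not_lt.1 h, hx.2⟩
  have h2 := card_le_card h1
  have h3 := card_union_le (S ∩ range a) (Ico a (a + n))
  rw [Nat.card_Ico, Nat.add_sub_cancel_left] at h3
  have h4 : ((S ∩ range (a + n)).card : ℤ) ≤ ((S ∩ range a).card : ℤ) + n := by exact_mod_cast h2.trans h3
  linarith

/-- The displacement of a window is the sum of the displacements of its children. -/
theorem dsp_sum (a d T : ℕ) (S : Finset ℕ) : ∑ r ∈ range T, dsp (a + r * d) d S = dsp a (T * d) S := by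
  unfold dsp
  have h := sum_range_sub (fun r => pos S (a + r * d)) T
  rw [show a + 0 * d = a by ring] at h
  rw [← h]
  refine sum_congr rfl fun r _ => ?_
  rw [show a + (r + 1) * d = a + r * d + d by ring]

variable {μ : Measure ℝ} {s : ℝ}

theorem measurable_GS (N : ℕ) (S : Finset ℕ) : Measurable fun η : Env => GS μ s η N S := by
  unfold GS pth
  refine Measurable.div (Measurable.const_mul (Finset.measurable_fun_prod _ fun i _ =>
    Real.measurable_exp.comp (measurable_pi_apply _)) _) (Real.measurable_exp.comp (measurable_V _ _))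

theorem GS_le_one (η : Env) {N : ℕ} {S : Finset ℕ} (hS : S ∈ (range N).powerset) : GS μ s η N S ≤ 1 := by
  rw [← GS_sum (μ := μ) (s := s) η N]
  exact single_le_sum (f := fun S => GS μ s η N S) (fun S _ => GS_nonneg η N S) hS

/-- Entrance and displacement of the block `(a, a + n]`. -/
theorem GS_block {N a n : ℕ} (h : a + n ≤ N) (η : Env) (f : ℤ → ℤ → ℝ) :
    ∑ S ∈ (range N).powerset, GS μ s η N S * f (pos S a) (dsp a n S) =
      ∑ q ∈ Pr a n, Gn μ s η a n (N - (a + n)) q * f q.1 q.2 := by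
  obtain ⟨k, rfl⟩ : ∃ k, N = a + n + k := ⟨N - (a + n), by omega⟩
  rw [show a + n + k - (a + n) = k by omega]
  exact GS_Gn η a n k f

variable [IsProbabilityMeasure μ]

omit [IsProbabilityMeasure μ] in
theorem integrable_GS_mul {N : ℕ} {S : Finset ℕ} (hS : S ∈ (range N).powerset) {f : Env → ℝ}
    (hf : Integrable f (law μ)) : Integrable (fun η => GS μ s η N S * f η) (law μ) := by
  refine hf.bdd_mul (c := 1) (measurable_GS N S).aestronglyMeasurable (Filter.Eventually.of_forall fun η => ?_)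
  rw [Real.norm_eq_abs, abs_of_nonneg (GS_nonneg _ _ _)]
  exact GS_le_one η hS

/-- The annealed mean of a functional of the environment and the path. -/
def MG (μ : Measure ℝ) (N : ℕ) (F : Env → Finset ℕ → ℝ) : ℝ :=
  ∫ η, ∑ S ∈ (range N).powerset, GS μ 0 η N S * F η S ∂(law μ)

theorem integrable_MG {N : ℕ} {F : Env → Finset ℕ → ℝ} (hF : ∀ S ∈ (range N).powerset, Integrable (fun η => F η S) (law μ)) :
    Integrable (fun η => ∑ S ∈ (range N).powerset, GS μ 0 η N S * F η S) (law μ) :=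
  integrable_finsetSum _ fun S hS => integrable_GS_mul hS (hF S hS)

theorem MG_mono {N : ℕ} {F G : Env → Finset ℕ → ℝ} (hF : ∀ S ∈ (range N).powerset, Integrable (fun η => F η S) (law μ))
    (hG : ∀ S ∈ (range N).powerset, Integrable (fun η => G η S) (law μ))
    (h : ∀ η, ∀ S ∈ (range N).powerset, F η S ≤ G η S) : MG μ N F ≤ MG μ N G :=
  integral_mono (integrable_MG hF) (integrable_MG hG) fun η =>
    sum_le_sum fun S hS => mul_le_mul_of_nonneg_left (h η S hS) (GS_nonneg _ _ _)

theorem MG_add {N : ℕ} {F G : Env → Finset ℕ → ℝ} (hF : ∀ S ∈ (range N).powerset, Integrable (fun η => F η S) (law μ))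
    (hG : ∀ S ∈ (range N).powerset, Integrable (fun η => G η S) (law μ)) :
    MG μ N (fun η S => F η S + G η S) = MG μ N F + MG μ N G := by
  unfold MG
  rw [← integral_add (integrable_MG hF) (integrable_MG hG)]
  refine integral_congr_ae (Filter.Eventually.of_forall fun η => ?_)
  beta_reduce
  rw [← sum_add_distrib]
  exact sum_congr rfl fun S _ => mul_add _ _ _

omit [IsProbabilityMeasure μ] in
theorem MG_const_mul (N : ℕ) (c : ℝ) (F : Env → Finset ℕ → ℝ) : MG μ N (fun η S => c * F η S) = c * MG μ N F := by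
  unfold MG
  rw [← integral_const_mul]
  refine integral_congr_ae (Filter.Eventually.of_forall fun η => ?_)
  beta_reduce
  rw [mul_sum]
  refine sum_congr rfl fun S _ => by ring

theorem MG_const (N : ℕ) (c : ℝ) : MG μ N (fun _ _ => c) = c := by
  unfold MG
  have h : ∀ η : Env, ∑ S ∈ (range N).powerset, GS μ 0 η N S * c = c := fun η => by
    rw [← sum_mul, GS_sum, one_mul]
  simp only [h]
  rw [integral_const, probReal_univ, one_smul]

theorem MG_le_of_pt {N : ℕ} {F : Env → Finset ℕ → ℝ} (hF : ∀ S ∈ (range N).powerset, Integrable (fun η => F η S) (law μ))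
    {B : ℝ} (h : ∀ η, ∑ S ∈ (range N).powerset, GS μ 0 η N S * F η S ≤ B) : MG μ N F ≤ B := by
  have h1 : MG μ N F ≤ ∫ _ : Env, B ∂(law μ) := integral_mono (integrable_MG hF) (integrable_const B) h
  rw [integral_const, probReal_univ, one_smul] at h1
  exact h1

omit [IsProbabilityMeasure μ] in
/-- The annealed mean of a function of entrance and displacement of a block. -/
theorem MG_block {N a n : ℕ} (h : a + n ≤ N) (f : Env → ℤ → ℤ → ℝ) :
    MG μ N (fun η S => f η (pos S a) (dsp a n S)) =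
      ∫ η, ∑ q ∈ Pr a n, Gn μ 0 η a n (N - (a + n)) q * f η q.1 q.2 ∂(law μ) := by
  unfold MG
  refine integral_congr_ae (Filter.Eventually.of_forall fun η => ?_)
  exact GS_block h η (f η)

omit [IsProbabilityMeasure μ] in
theorem Sub_XC (a n : ℕ) (S : Finset ℕ) : Sub fun η => XC μ a n η S := Sub_X _ (dsp_nonneg _ _ _) (dsp_le _ _ _)

omit [IsProbabilityMeasure μ] in
theorem slope_abs {n : ℕ} (hn : 1 ≤ n) {y : ℤ} (h0 : 0 ≤ y) (h1 : y ≤ n) : |((y : ℝ) - n / 2) / n| ≤ 1 / 2 := by
  have hmr : (0 : ℝ) < n := by exact_mod_cast hn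
  have hyr0 : (0 : ℝ) ≤ y := by exact_mod_cast h0
  have hyr1 : (y : ℝ) ≤ n := by exact_mod_cast h1
  rw [abs_div, abs_of_pos hmr, div_le_iff₀ hmr, abs_le]
  constructor <;> linarith

theorem Phn_nonneg (hμ : Pool.Agent.W_7d29a1_h47.EM μ) {n : ℕ} (hn : 1 ≤ n) {y : ℤ} (h0 : 0 ≤ y) (h1 : y ≤ n) :
    0 ≤ Phn μ n y := price_nonneg hμ hn h0 h1

omit [IsProbabilityMeasure μ] in
/-- (H3) for the prices of a window and its children, from the inequality for the rate function. -/
theorem Phn_split {ep C₃ : ℝ} {T : ℕ} (hT : 0 < T)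
    (hJ : ∀ v : ℕ → ℝ, (∀ r < T, |v r| ≤ 1 / 2) → ∀ r < T, T * J μ ((∑ r ∈ range T, v r) / T) ≤
      ep * J μ (v r) + C₃ * ∑ s ∈ (range T).erase r, J μ (v s)) {d : ℕ} (hd : 1 ≤ d) (a : ℕ) (S : Finset ℕ)
    {r : ℕ} (hr : r < T) :
    Phn μ (T * d) (dsp a (T * d) S) ≤ ep * Phn μ d (dsp (a + r * d) d S) +
      C₃ * ∑ s ∈ (range T).erase r, Phn μ d (dsp (a + s * d) d S) := by
  have hTr : (0 : ℝ) < T := by exact_mod_cast hT
  have hdr : (0 : ℝ) < d := by exact_mod_cast hd
  have h1 := hJ (fun r => ((dsp (a + r * d) d S : ℝ) - d / 2) / d) (fun r _ =>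
    slope_abs hd (dsp_nonneg _ _ _) (dsp_le _ _ _)) r hr
  have e1 : (∑ r ∈ range T, ((dsp (a + r * d) d S : ℝ) - d / 2) / d) / T =
      ((dsp a (T * d) S : ℝ) - ((T * d : ℕ) : ℝ) / 2) / ((T * d : ℕ) : ℝ) := by
    rw [← sum_div, sum_sub_distrib, sum_const, card_range, nsmul_eq_mul, ← dsp_sum]
    push_cast
    field_simp
  rw [e1] at h1
  have h2 := mul_le_mul_of_nonneg_left h1 hdr.le
  unfold Phn
  calc ((T * d : ℕ) : ℝ) * J μ (((dsp a (T * d) S : ℝ) - ((T * d : ℕ) : ℝ) / 2) / ((T * d : ℕ) : ℝ))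
      = d * (T * J μ (((dsp a (T * d) S : ℝ) - ((T * d : ℕ) : ℝ) / 2) / ((T * d : ℕ) : ℝ))) := by
        push_cast
        ring
    _ ≤ _ := h2
    _ = _ := by
        rw [mul_add, mul_sum, mul_sum, mul_sum]
        congr 1
        · ring
        · refine sum_congr rfl fun s _ => by ring

end

end Pool.Agent.W_7d29a1_XT
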