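import Pool.Agent.W_7d29a1_XT.ESF
import Pool.Agent.W_7d29a1_SL.Main
import Pool.Agent.W_7d29a1_X40.H3b

/-!
STORM X (MP_7d29a1_pr), assembly of (ES): the inputs on the rate function are theorems. (helper27)
-/

namespace Pool.Agent.W_7d29a1_XT

open Finset MeasureTheory ProbabilityTheory
open Pool.Agent.W_7d29a1_F Pool.Agent.W_7d29a1_X Pool.Agent.W_7d29a1_X50 Pool.Agent.W_7d29a1_G
open Pool.Agent.W_7d29a1_SR (In)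
open Pool.Agent.W_7d29a1_XA (ESF)

noncomputable section

variable {μ : Measure ℝ} [IsProbabilityMeasure μ]

/-- (H3) for the rate function. -/
theorem hJ_wire {c C : ℝ} {n₀ : ℕ} (h : In μ c C n₀) (hD : Dj μ) : ∃ C₃ : ℝ, 1 ≤ C₃ ∧ ∀ ep : ℝ, 0 < ep →
    ∃ T₀ : ℕ, ∀ T : ℕ, T₀ ≤ T → ∀ v : ℕ → ℝ, (∀ r < T, |v r| ≤ 1 / 2) → ∀ r < T,
      T * J μ ((∑ s ∈ range T, v s) / T) ≤ ep * J μ (v r) + C₃ * ∑ s ∈ (range T).erase r, J μ (v s) := by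
  obtain ⟨C₁, c₁, n₃, hC₁, h0, h1, hSL⟩ := Pool.Agent.W_7d29a1_SL.sl h
  obtain ⟨K, a, v₀, hK, ha, -, hv₀, hv₁, hN⟩ := Pool.Agent.W_7d29a1_SL.superJ h hC₁ h0 h1 hSL
  exact Pool.Agent.W_7d29a1_X40.hJ_of h.em h.nd ⟨K, a, v₀, hK, ha, hv₀, hv₁, hN⟩ hD

/-- (ES) on the complete slabs: `ESF` from the three inputs at the place of the polymer. -/
theorem esf_wire {c C : ℝ} {n₀ : ℕ} (h : In μ c C n₀) (hD : Dj μ)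
    -- (I3)
    {c' Cl : ℝ} {i₁ : ℕ} (hc' : 0 < c') (hCl : 0 ≤ Cl)
    (hL : ∀ i N : ℕ, i₁ ≤ i → 2 ^ i ≤ N → Real.log N ≤ EE μ (2 ^ i) →
      ∑ k ∈ range (N / 2 ^ i), ∫ η, ∑ q ∈ Pr (k * 2 ^ i) (2 ^ i),
        Gn μ 0 η (k * 2 ^ i) (2 ^ i) (N - (k * 2 ^ i + 2 ^ i)) q *
        (max (c' * Phn μ (2 ^ i) q.2 - X μ 0 η (((k * 2 ^ i : ℕ) : ℤ), q.1) (2 ^ i) q.2) 0) ^ 2 ∂(law μ) ≤
        Cl * (N / ((2 ^ i : ℕ) : ℝ)) * EE μ (2 ^ i) ^ 2)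
    -- (I4)
    {Cr : ℝ} {n₂ : ℕ} (hCr : 0 ≤ Cr)
    (hR : ∀ a n k : ℕ, n₂ ≤ n → ∫ η, ∑ q ∈ Pr a n, Gn μ 0 η a n k q *
      (max (X μ 0 η ((a : ℤ), q.1) n q.2) 0) ^ 2 ∂(law μ) ≤ Cr * EE μ (a + n + k) ^ 2)
    -- (H1)
    {Ce : ℝ} (hCe : 0 ≤ Ce)
    (hE : ∀ (T : ℕ) (η : Env) (N a d : ℕ), 1 ≤ T → 1 ≤ d → a + T * d ≤ N →
      ∑ S ∈ (range N).powerset, GS μ 0 η N S *
        (max (∑ r ∈ range T, XC μ (a + r * d) d η S - XC μ a (T * d) η S) 0) ^ 2 ≤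
      Ce * (T : ℝ) ^ 2 * (Real.log N + 1) ^ 2) : ESF μ := by
  obtain ⟨C₃, hC₃, hJ⟩ := hJ_wire h hD
  exact esf_of h hD hc' hCl hL hCr hR hCe hE (lt_of_lt_of_le one_pos hC₃) hJ

end

end Pool.Agent.W_7d29a1_XT
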