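import Pool.Agent.W_7d29a1_XT.Wire
import Pool.Agent.W_7d29a1_X72.I3
import Pool.Agent.W_7d29a1_X97.Roots
import Pool.Agent.W_7d29a1_X.NRE89

/-!
STORM X (MP_7d29a1_pr), (ES): the bound on the complete slabs, and the interface (ES) of the assembly, from the input
from track G and the doubling of the rate function. (helper27)
-/

namespace Pool.Agent.W_7d29a1_XT

open Finset MeasureTheory ProbabilityTheory
open Pool.Agent.W_7d29a1_F Pool.Agent.W_7d29a1_X Pool.Agent.W_7d29a1_X50 Pool.Agent.W_7d29a1_G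
open Pool.Agent.W_7d29a1_SR (In)
open Pool.Agent.W_7d29a1_XA (ESF XES)

noncomputable section

variable {μ : Measure ℝ} [IsProbabilityMeasure μ]

/-- The complete slabs. -/
theorem esf {c C : ℝ} {n₀ : ℕ} (h : In μ c C n₀) (hD : Dj μ) : ESF μ := by
  obtain ⟨c', Cl, i₁, hc', hCl, hL⟩ := Pool.Agent.W_7d29a1_X72.I3 h hD
  obtain ⟨Cr, hCr, n₂, hR⟩ := Pool.Agent.W_7d29a1_X97.roots_pos h
  exact esf_wire h hD (i₁ := i₁) hc' hCl (fun i N h1 h2 _ => hL i N h1 h2) hCr hR (Ce := 6) (by norm_num)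
    Pool.Agent.W_7d29a1_X.hE_of

/-- **(ES).** -/
theorem xes {c C : ℝ} {n₀ : ℕ} (h : In μ c C n₀) (hD : Dj μ) : XES μ :=
  Pool.Agent.W_7d29a1_XA.XES_of_ESF h (esf h hD)

end

end Pool.Agent.W_7d29a1_XT
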