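import Pool.Agent.W_7d29a1_XT.XES
import Pool.Agent.W_7d29a1_X53.StLk
import Pool.Agent.W_7d29a1_XA.Full
import Pool.Agent.W_7d29a1_SL.Cor

/-!
STORM X (MP_7d29a1_pr), assembly of (ES): the bound on the complete slabs, `ESF` of `W_7d29a1_XA/Full.lean`. (helper27)
-/

namespace Pool.Agent.W_7d29a1_XT

open Finset MeasureTheory ProbabilityTheory
open Pool.Agent.W_7d29a1_F Pool.Agent.W_7d29a1_X Pool.Agent.W_7d29a1_X50 Pool.Agent.W_7d29a1_G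
open Pool.Agent.W_7d29a1_SR (In)
open Pool.Agent.W_7d29a1_XA (ESF aa)
open Pool.Agent.W_7d29a1_X53 (XP LP)

noncomputable section

variable {μ : Measure ℝ} [IsProbabilityMeasure μ]

/-- The unit of the scale `2 ^ j` beats every linear function of `j`. -/
theorem EE_lin {c C : ℝ} {n₀ : ℕ} (h : In μ c C n₀) (J1 : ℕ) : ∃ i0 : ℕ, ∀ j : ℕ, i0 ≤ j →
    (j : ℝ) + J1 + 1 ≤ EE μ (2 ^ j) := by
  obtain ⟨a, n₁, ha, -, hn₁, hpow⟩ := Pool.Agent.W_7d29a1_SL.EE_pow h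
  obtain ⟨b, hb⟩ : ∃ b : ℝ, b = a * Real.log 2 := ⟨_, rfl⟩
  have hb0 : 0 < b := by
    rw [hb]
    exact mul_pos ha (Real.log_pos (by norm_num))
  obtain ⟨q, hq⟩ : ∃ q : ℕ, 8 / b ^ 2 ≤ q := exists_nat_ge _
  refine ⟨n₁ + q + (n₁ + J1 + 1), fun j hj => ?_⟩
  obtain ⟨x, hx⟩ : ∃ x : ℕ, j = n₁ + x := ⟨j - n₁, by omega⟩
  have hxq : q ≤ x := by omega
  have hxn : n₁ + J1 + 1 ≤ x := by omega
  have h1 := hpow (2 ^ n₁) (2 ^ j) (Nat.lt_two_pow_self).le (Nat.pow_le_pow_right (by norm_num) (by omega))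
  have h2 : (((2 ^ j : ℕ) : ℝ) / ((2 ^ n₁ : ℕ) : ℝ)) = 2 ^ x := by
    rw [hx]
    push_cast
    rw [pow_add]
    field_simp
  rw [h2] at h1
  have h3 : ((2 : ℝ) ^ x) ^ a = Real.exp (b * x) := by
    rw [hb, Real.rpow_def_of_pos (by positivity), Real.log_pow]
    congr 1
    ring
  rw [h3] at h1
  have hxr : (0 : ℝ) ≤ x := Nat.cast_nonneg x
  have h4 := Real.quadratic_le_exp_of_nonneg (x := b * x) (mul_nonneg hb0.le hxr)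
  have h5 : 1 ≤ EE μ (2 ^ n₁) := one_le_EE _
  have h6 : Real.exp (b * x) * 1 ≤ Real.exp (b * x) * EE μ (2 ^ n₁) :=
    mul_le_mul_of_nonneg_left h5 (Real.exp_pos _).le
  have h7 : (b * x) ^ 2 / 4 ≤ EE μ (2 ^ j) := by
    have : 0 ≤ b * x := mul_nonneg hb0.le hxr
    linarith
  have h8 : 8 ≤ b ^ 2 * x := by
    have h9 : (8 : ℝ) / b ^ 2 ≤ x := hq.trans (by exact_mod_cast hxq)
    rw [div_le_iff₀ (by positivity)] at h9
    linarith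
  have h9 : 2 * (x : ℝ) ≤ (b * x) ^ 2 / 4 := by
    have h10 := mul_le_mul_of_nonneg_right h8 hxr
    nlinarith
  have h10 : ((n₁ : ℝ) + J1 + 1) ≤ x := by exact_mod_cast hxn
  have h11 : (j : ℝ) = n₁ + x := by
    rw [hx]
    push_cast
    ring
  rw [h11]
  linarith

/-- (ES) on the complete slabs: `ESF` of helper51. -/
theorem esf_of {c C : ℝ} {n₀ : ℕ} (h : In μ c C n₀) (hD : Dj μ)
    -- (I3)
    {c' Cl : ℝ} {i₁ : ℕ} (hc' : 0 < c') (hCl : 0 ≤ Cl)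
    (hL : ∀ i N : ℕ, i₁ ≤ i → 2 ^ i ≤ N → Real.log N ≤ EE μ (2 ^ i) →
      ∑ k ∈ range (N / 2 ^ i), ∫ η, ∑ q ∈ Pr (k * 2 ^ i) (2 ^ i),
        Gn μ 0 η (k * 2 ^ i) (2 ^ i) (N - (k * 2 ^ i + 2 ^ i)) q *
        (max (c' * Phn μ (2 ^ i) q.2 - X μ 0 η (((k * 2 ^ i : ℕ) : ℤ), q.1) (2 ^ i) q.2) 0) ^ 2 ∂(law μ) ≤
        Cl * (N / ((2 ^ i : ℕ) : ℝ)) * EE μ (2 ^ i) ^ 2)
    -- (I4)
    {Cr : ℝ} {n₂ : ℕ} (hCr : 0 ≤ Cr)
    (hR : ∀ a n k : ℕ, n₂ ≤ n → ∫ η, ∑ q ∈ Pr a n, Gn μ 0 η a n k q *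
      (max (X μ 0 η ((a : ℤ), q.1) n q.2) 0) ^ 2 ∂(law μ) ≤ Cr * EE μ (a + n + k) ^ 2)
    -- (H1)
    {Ce : ℝ} (hCe : 0 ≤ Ce)
    (hE : ∀ (T : ℕ) (η : Env) (N a d : ℕ), 1 ≤ T → 1 ≤ d → a + T * d ≤ N →
      ∑ S ∈ (range N).powerset, GS μ 0 η N S *
        (max (∑ r ∈ range T, XC μ (a + r * d) d η S - XC μ a (T * d) η S) 0) ^ 2 ≤
      Ce * (T : ℝ) ^ 2 * (Real.log N + 1) ^ 2)
    -- (H3)
    {C₃ : ℝ} (hC₃ : 0 < C₃)
    (hJ : ∀ ep : ℝ, 0 < ep → ∃ T₀ : ℕ, ∀ T : ℕ, T₀ ≤ T → ∀ v : ℕ → ℝ, (∀ r < T, |v r| ≤ 1 / 2) → ∀ r < T,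
      T * J μ ((∑ s ∈ range T, v s) / T) ≤ ep * J μ (v r) + C₃ * ∑ s ∈ (range T).erase r, J μ (v s)) :
    ESF μ := by
  have hJ' : ∀ ep : ℝ, 0 < ep → ∃ t : ℕ, 1 ≤ t ∧ ∀ v : ℕ → ℝ, (∀ r < 2 ^ t, |v r| ≤ 1 / 2) → ∀ r < 2 ^ t,
      ((2 ^ t : ℕ) : ℝ) * J μ ((∑ r ∈ range (2 ^ t), v r) / ((2 ^ t : ℕ) : ℝ)) ≤
        ep * J μ (v r) + C₃ * ∑ s ∈ (range (2 ^ t)).erase r, J μ (v s) := by
    intro ep hep
    obtain ⟨T₀, hT₀⟩ := hJ ep hep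
    refine ⟨T₀ + 1, by omega, hT₀ (2 ^ (T₀ + 1)) ?_⟩
    have := (Nat.lt_two_pow_self (n := T₀ + 1))
    omega
  obtain ⟨B, j₀, hB, hcost⟩ := es_cost h hD hc' hCl hL hCr hR hCe hE hC₃ hJ'
  obtain ⟨K, hK, hSt⟩ := Pool.Agent.W_7d29a1_X53.St_le h hD hc'
  refine ⟨K * (1 + B + Cl) + Cl, fun J1 => ?_⟩
  obtain ⟨i0, hi0⟩ := EE_lin h J1
  refine ⟨max i0 (max j₀ i₁), fun j N hj hN1 hN2 => ?_⟩
  have hj0 : i0 ≤ j := (le_max_left _ _).trans hj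
  have hj1 : j₀ ≤ j := ((le_max_left _ _).trans (le_max_right _ _)).trans hj
  have hj2 : i₁ ≤ j := ((le_max_right _ _).trans (le_max_right _ _)).trans hj
  have hjN : 2 ^ j ≤ N := (Nat.pow_le_pow_right (by norm_num) (Nat.le_add_right _ _)).trans hN1.le
  have hN0 : 1 ≤ N := Nat.one_le_two_pow.trans hjN
  have hNr : (0 : ℝ) < N := by exact_mod_cast hN0
  have hlog : Real.log N ≤ EE μ (2 ^ j) := by
    have h1 : (N : ℝ) ≤ 2 ^ (j + J1 + 1) := by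
      have : N ≤ 2 ^ (j + J1 + 1) := by
        rw [pow_succ, mul_comm]
        exact hN2
      exact_mod_cast this
    have h2 := Real.log_le_log hNr h1
    rw [Real.log_pow] at h2
    have h3 : Real.log 2 ≤ 1 := by
      have := Real.log_two_lt_d9
      linarith
    have h4 : (((j + J1 + 1 : ℕ) : ℝ)) * Real.log 2 ≤ ((j + J1 + 1 : ℕ) : ℝ) * 1 :=
      mul_le_mul_of_nonneg_left h3 (Nat.cast_nonneg _)
    have h5 := hi0 j hj0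
    push_cast at h2 h4
    linarith
  have hX := hcost j N hj1 hjN hlog
  have hLL := hL j N hj2 hjN hlog
  obtain ⟨m, hm⟩ : ∃ m : ℕ, m = 2 ^ j := ⟨_, rfl⟩
  have haa : aa μ j = EE μ m ^ 2 / (m : ℝ) := by
    unfold aa
    rw [hm]
    push_cast
    rfl
  rw [haa]
  rw [← hm] at hX hLL hjN ⊢
  have hm1 : 1 ≤ m := by rw [hm]; exact Nat.one_le_two_pow
  have hmr : (0 : ℝ) < m := by exact_mod_cast hm1
  have hidx : ∀ k, N - (k + 1) * m = N - (k * m + m) := fun k => by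
    congr 1
    ring
  have hpt : ∀ k ∈ range (N / m), St μ 0 (k * m) m (N - (k + 1) * m) + Lk μ 0 (k * m) m (N - (k + 1) * m) ≤
      K * (EE μ m ^ 2 + XP μ (k * m) m (N - (k * m + m)) + LP μ c' (k * m) m (N - (k * m + m))) +
        LP μ c' (k * m) m (N - (k * m + m)) := fun k _ => by
    rw [hidx]
    exact add_le_add (hSt _ _ _ hm1) (Pool.Agent.W_7d29a1_X53.Lk_le h.em hc'.le hm1 _ _)
  refine (sum_le_sum hpt).trans ?_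
  rw [sum_add_distrib, ← mul_sum, sum_add_distrib, sum_add_distrib, sum_const, card_range, nsmul_eq_mul]
  have hcard : ((N / m : ℕ) : ℝ) ≤ N / m := Nat.cast_div_le
  have hE2 : 0 ≤ EE μ m ^ 2 := sq_nonneg _
  have g1 : ((N / m : ℕ) : ℝ) * EE μ m ^ 2 ≤ N * (EE μ m ^ 2 / m) := by
    refine (mul_le_mul_of_nonneg_right hcard hE2).trans (le_of_eq ?_)
    ring
  have g2 : ∑ k ∈ range (N / m), XP μ (k * m) m (N - (k * m + m)) ≤ B * (N * (EE μ m ^ 2 / m)) := hX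
  have g3 : ∑ k ∈ range (N / m), LP μ c' (k * m) m (N - (k * m + m)) ≤ Cl * (N * (EE μ m ^ 2 / m)) := by
    refine le_trans hLL (le_of_eq ?_)
    ring
  have g4 := mul_le_mul_of_nonneg_left (add_le_add (add_le_add g1 g2) g3) hK
  refine (add_le_add g4 g3).trans (le_of_eq ?_)
  ring

end

end Pool.Agent.W_7d29a1_XT
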