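import Pool.Agent.W_7d29a1_XT.Tree

/-!
MP_7d29a1_pr, STORM X. The tree lemma for forests: node `(i, k)` = the `k`-th complete window of level `i`, `k < Nn i`;
the windows `T Nn (i + 1) ≤ k < Nn i` are the roots of level `i`.
-/

namespace Pool.Agent.W_7d29a1_XT

open Finset

/-- **The tree lemma for a forest** (complete windows). -/
theorem forest {c C C3 : ℝ} (hc : 0 < c) (hC : 0 < C) (hC3 : 0 < C3) :
    ∃ ep K lam : ℝ, 0 < ep ∧ 1 ≤ K ∧ 0 < lam ∧ lam < 1 ∧
      ∀ (T L : ℕ) (Nn : ℕ → ℕ) (X Ph La : ℕ → ℕ → ℝ), (∀ i < L, T * Nn (i + 1) ≤ Nn i) → Nn L = 0 →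
        (∀ i < L, ∀ k < Nn i, 0 ≤ La i k ∧ 0 ≤ Ph i k ∧ c * Ph i k - La i k ≤ X i k ∧
          X i k ≤ C * Ph i k + La i k) →
        (∀ i < L, ∀ k < Nn (i + 1), ∑ r ∈ range T, X i (T * k + r) ≤ X (i + 1) k + La (i + 1) k) →
        (∀ i < L, ∀ k < Nn (i + 1), ∀ r < T,
          Ph (i + 1) k ≤ ep * Ph i (T * k + r) + C3 * ∑ s ∈ (range T).erase r, Ph i (T * k + s)) →
        ∑ k ∈ range (Nn 0), (max (X 0 k) 0) ^ 2 ≤
          ∑ i ∈ range L, lam ^ i * ∑ k ∈ Ico (T * Nn (i + 1)) (Nn i), (max (X i k) 0) ^ 2 +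
          T * K ^ 2 * ∑ i ∈ range L, lam ^ i *
            ∑ k ∈ range (Nn (i + 1)), (La (i + 1) k + ∑ s ∈ range T, La i (T * k + s)) ^ 2 := by
  set ep : ℝ := c / (16 * C) with hep
  set et : ℝ := c / (16 * (C * C3)) with het
  have hep0 : 0 < ep := by positivity
  have het0 : 0 < et := by positivity
  set K : ℝ := max (8 * (C / c * (ep + C3) + 1)) (2 / et) with hK
  have hK1 : 8 * (C / c * (ep + C3) + 1) ≤ K := le_max_left _ _
  have hK2 : 2 / et ≤ K := le_max_right _ _
  have hK8 : 8 ≤ K := by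
    have : 0 ≤ C / c * (ep + C3) := by positivity
    linarith
  have hK0 : 0 < K := by linarith
  have hKet : 1 / K ≤ et / 2 := by
    rw [div_le_div_iff₀ hK0 two_pos]
    rw [div_le_iff₀ het0] at hK2
    linarith
  set lam : ℝ := (1 + et / 2) / (1 + et) with hlam
  have hlam0 : 0 < lam := by positivity
  have hlam1 : lam < 1 := by
    rw [hlam, div_lt_one (by positivity)]
    linarith
  refine ⟨ep, K, lam, hep0, by linarith, hlam0, hlam1, ?_⟩
  intro T L Nn X Ph La hNn hNL h2' h1 h3
  have hCep : C * ep ≤ c / 16 := by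
    rw [hep]
    apply le_of_eq
    field_simp
  have hCet : C * C3 * et ≤ c / 16 := by
    rw [het]
    apply le_of_eq
    field_simp
  have h2 : ∀ i ≤ L, ∀ k < Nn i, 0 ≤ La i k ∧ 0 ≤ Ph i k ∧ c * Ph i k - La i k ≤ X i k ∧
      X i k ≤ C * Ph i k + La i k := by
    intro i hi k hk
    rcases Nat.lt_or_ge i L with h | h
    · exact h2' i h k hk
    · have : i = L := le_antisymm hi h
      rw [this, hNL] at hk
      omega
  -- index bookkeeping
  have hidx : ∀ i < L, ∀ k < Nn (i + 1), ∀ r < T, T * k + r < Nn i := by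
    intro i hi k hk r hr
    calc T * k + r < T * k + T := by omega
      _ = T * (k + 1) := by ring
      _ ≤ T * Nn (i + 1) := Nat.mul_le_mul_left _ hk
      _ ≤ Nn i := hNn i hi
  -- Step 2
  have step2 : ∀ i < L, ∀ k < Nn (i + 1),
      ∑ r ∈ range T, (if K * (La (i + 1) k + ∑ s ∈ range T, La i (T * k + s)) ≤ X i (T * k + r) then
        (max (X i (T * k + r)) 0) ^ 2 else 0) ≤ lam * (max (X (i + 1) k) 0) ^ 2 := by
    intro i hi k hk
    set Lp : ℝ := La (i + 1) k + ∑ s ∈ range T, La i (T * k + s) with hLp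
    have hch : ∀ r < T, 0 ≤ La i (T * k + r) ∧ 0 ≤ Ph i (T * k + r) ∧
        c * Ph i (T * k + r) - La i (T * k + r) ≤ X i (T * k + r) ∧
        X i (T * k + r) ≤ C * Ph i (T * k + r) + La i (T * k + r) :=
      fun r hr => h2 i hi.le _ (hidx i hi k hk r hr)
    have hpar := h2 (i + 1) hi k hk
    have hsumLa : ∀ r ∈ range T, 0 ≤ La i (T * k + r) := fun r hr => (hch r (mem_range.1 hr)).1
    have hLa0 : 0 ≤ ∑ s ∈ range T, La i (T * k + s) := sum_nonneg hsumLa
    have hLp0 : 0 ≤ Lp := add_nonneg hpar.1 hLa0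
    have hH1 := h1 i hi k hk
    have key : ∀ r < T, K * Lp ≤ X i (T * k + r) → (1 + et) * X i (T * k + r) ≤ X (i + 1) k := by
      intro r hr hx
      have hrm : r ∈ range T := mem_range.2 hr
      have s1 := add_sum_erase (range T) (fun s => X i (T * k + s)) hrm
      have s2 := add_sum_erase (range T) (fun s => La i (T * k + s)) hrm
      have s3 : ∑ s ∈ (range T).erase r, (c * Ph i (T * k + s) - La i (T * k + s)) ≤
          ∑ s ∈ (range T).erase r, X i (T * k + s) :=
        sum_le_sum fun s hs => (hch s (mem_range.1 (mem_of_mem_erase hs))).2.2.1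
      rw [sum_sub_distrib, ← mul_sum] at s3
      have s4 : 0 ≤ ∑ s ∈ (range T).erase r, Ph i (T * k + s) :=
        sum_nonneg fun s hs => (hch s (mem_range.1 (mem_of_mem_erase hs))).2.1
      have s5 := (hch r hr).2.2.1
      have s6 := (hch r hr).1
      have s7 : 0 ≤ c * ∑ s ∈ (range T).erase r, Ph i (T * k + s) := mul_nonneg hc.le s4
      have s8 : 0 ≤ ∑ s ∈ (range T).erase r, La i (T * k + s) :=
        sum_nonneg fun s hs => (hch s (mem_range.1 (mem_of_mem_erase hs))).1
      have hX1 : X (i + 1) k ≤ C * Ph (i + 1) k + Lp := by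
        have := hpar.2.2.2
        linarith
      refine step_one (P := Ph (i + 1) k) (Ph := Ph i (T * k + r)) (S := ∑ s ∈ (range T).erase r, Ph i (T * k + s))
        (L := Lp) hc hC hC3 hep0.le hCep hCet het0 hK1 hLp0 hx ?_ ?_ (h3 i hi k hk r hr) hX1 ?_
      · linarith
      · linarith [hpar.1]
      · linarith
    by_cases hex : ∃ r < T, K * Lp ≤ X i (T * k + r)
    · obtain ⟨r0, hr0, hx0⟩ := hex
      have hXr0 : 0 ≤ X i (T * k + r0) := (mul_nonneg hK0.le hLp0).trans hx0
      have hXP : 0 ≤ X (i + 1) k := by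
        have := key r0 hr0 hx0
        have h := mul_nonneg (by positivity : (0 : ℝ) ≤ 1 + et) hXr0
        linarith
      have hKL : K * Lp ≤ X (i + 1) k := by
        have := key r0 hr0 hx0
        nlinarith
      have hLX : Lp ≤ et / 2 * X (i + 1) k := by
        have h4 : Lp ≤ 1 / K * X (i + 1) k := by
          rw [div_mul_eq_mul_div, one_mul, le_div_iff₀ hK0]
          linarith
        exact h4.trans (mul_le_mul_of_nonneg_right hKet hXP)
      have hb1 : ∀ r ∈ range T, (if K * Lp ≤ X i (T * k + r) then (max (X i (T * k + r)) 0) ^ 2 else 0) ≤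
          X (i + 1) k / (1 + et) * (X i (T * k + r) + La i (T * k + r)) := by
        intro r hr
        have hr' := mem_range.1 hr
        have h5 := (hch r hr').2.2.1
        have h6 := (hch r hr').1
        have h7 := mul_nonneg hc.le (hch r hr').2.1
        have h8 : 0 ≤ X i (T * k + r) + La i (T * k + r) := by linarith
        split_ifs with hx
        · have hXr : 0 ≤ X i (T * k + r) := (mul_nonneg hK0.le hLp0).trans hx
          rw [max_eq_left hXr, sq]
          have h9 : X i (T * k + r) ≤ X (i + 1) k / (1 + et) := by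
            rw [le_div_iff₀ (by positivity)]
            linarith [key r hr' hx]
          exact mul_le_mul h9 (by linarith) hXr (div_nonneg hXP (by positivity))
        · exact mul_nonneg (div_nonneg hXP (by positivity)) h8
      refine (sum_le_sum hb1).trans ?_
      rw [← mul_sum, sum_add_distrib, max_eq_left hXP]
      have h10 : ∑ r ∈ range T, X i (T * k + r) + ∑ r ∈ range T, La i (T * k + r) ≤ (1 + et / 2) * X (i + 1) k := by
        linarith
      calc X (i + 1) k / (1 + et) * (∑ r ∈ range T, X i (T * k + r) + ∑ r ∈ range T, La i (T * k + r))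
          ≤ X (i + 1) k / (1 + et) * ((1 + et / 2) * X (i + 1) k) :=
            mul_le_mul_of_nonneg_left h10 (div_nonneg hXP (by positivity))
        _ = lam * X (i + 1) k ^ 2 := by
            rw [hlam]
            field_simp
    · push Not at hex
      have hz : ∑ r ∈ range T, (if K * Lp ≤ X i (T * k + r) then (max (X i (T * k + r)) 0) ^ 2 else 0) = 0 := by
        refine sum_eq_zero fun r hr => ?_
        rw [if_neg (not_le.2 (hex r (mem_range.1 hr)))]
      rw [hz]
      positivity
  -- Step 3: the chained sums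
  have stepS : ∀ i ≤ L, ∀ k < Nn i, SS K T X La i k ≤ lam ^ i * (max (X i k) 0) ^ 2 := by
    intro i
    induction i with
    | zero =>
      intro _ k _
      simp [SS]
    | succ i ih =>
      intro hi k hk
      have hi' : i < L := hi
      rw [SS]
      have hb : ∀ r ∈ range T, (if K * (La (i + 1) k + ∑ s ∈ range T, La i (T * k + s)) ≤ X i (T * k + r) then
          SS K T X La i (T * k + r) else 0) ≤ lam ^ i *
          (if K * (La (i + 1) k + ∑ s ∈ range T, La i (T * k + s)) ≤ X i (T * k + r) then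
          (max (X i (T * k + r)) 0) ^ 2 else 0) := by
        intro r hr
        split_ifs
        · exact ih hi'.le _ (hidx i hi' k hk r (mem_range.1 hr))
        · simp
      refine (sum_le_sum hb).trans ?_
      rw [← mul_sum, pow_succ, mul_assoc]
      exact mul_le_mul_of_nonneg_left (step2 i hi' k hk) (by positivity)
  -- levels
  have level : ∀ i < L, ∑ k ∈ range (Nn i), SS K T X La i k ≤
      ∑ k ∈ range (Nn (i + 1)), SS K T X La (i + 1) k +
      lam ^ i * ∑ k ∈ Ico (T * Nn (i + 1)) (Nn i), (max (X i k) 0) ^ 2 +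
      T * K ^ 2 * (lam ^ i * ∑ k ∈ range (Nn (i + 1)),
        (La (i + 1) k + ∑ s ∈ range T, La i (T * k + s)) ^ 2) := by
    intro i hi
    have e0 : ∑ k ∈ range (Nn i), SS K T X La i k = ∑ k ∈ range (Nn (i + 1) * T), SS K T X La i k +
        ∑ k ∈ Ico (T * Nn (i + 1)) (Nn i), SS K T X La i k := by
      rw [mul_comm (Nn (i + 1)) T, sum_range_add_sum_Ico _ (hNn i hi)]
    have e1 : ∑ k ∈ Ico (T * Nn (i + 1)) (Nn i), SS K T X La i k ≤
        lam ^ i * ∑ k ∈ Ico (T * Nn (i + 1)) (Nn i), (max (X i k) 0) ^ 2 := by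
      rw [mul_sum]
      exact sum_le_sum fun k hk => stepS i hi.le k (mem_Ico.1 hk).2
    have e2 : ∑ k ∈ range (Nn (i + 1) * T), SS K T X La i k ≤ ∑ k ∈ range (Nn (i + 1)), SS K T X La (i + 1) k +
        T * K ^ 2 * (lam ^ i * ∑ k ∈ range (Nn (i + 1)),
        (La (i + 1) k + ∑ s ∈ range T, La i (T * k + s)) ^ 2) := by
      rw [sum_children, mul_sum, mul_sum, ← sum_add_distrib]
      refine sum_le_sum fun k hk => ?_
      have hk' := mem_range.1 hk
      rw [SS]
      set Lp : ℝ := La (i + 1) k + ∑ s ∈ range T, La i (T * k + s) with hLp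
      have hch : ∀ r < T, 0 ≤ La i (T * k + r) := fun r hr => (h2 i hi.le _ (hidx i hi k hk' r hr)).1
      have hLp0 : 0 ≤ Lp := add_nonneg (h2 (i + 1) hi k hk').1 (sum_nonneg fun r hr => hch r (mem_range.1 hr))
      have hb : ∀ r ∈ range T, SS K T X La i (T * k + r) ≤
          (if K * Lp ≤ X i (T * k + r) then SS K T X La i (T * k + r) else 0) + K ^ 2 * (lam ^ i * Lp ^ 2) := by
        intro r hr
        split_ifs with hx
        · have : 0 ≤ K ^ 2 * (lam ^ i * Lp ^ 2) := by positivity
          linarith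
        · have h5 := stepS i hi.le _ (hidx i hi k hk' r (mem_range.1 hr))
          have h6 : (max (X i (T * k + r)) 0) ^ 2 ≤ (K * Lp) ^ 2 := by
            have h7 : max (X i (T * k + r)) 0 ≤ K * Lp := max_le (not_le.1 hx).le (mul_nonneg hK0.le hLp0)
            exact pow_le_pow_left₀ (le_max_right _ _) h7 2
          have h8 := mul_le_mul_of_nonneg_left h6 (by positivity : (0 : ℝ) ≤ lam ^ i)
          calc SS K T X La i (T * k + r) ≤ lam ^ i * (max (X i (T * k + r)) 0) ^ 2 := h5
            _ ≤ lam ^ i * (K * Lp) ^ 2 := h8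
            _ = 0 + K ^ 2 * (lam ^ i * Lp ^ 2) := by ring
      refine (sum_le_sum hb).trans ?_
      rw [sum_add_distrib, sum_const, card_range, nsmul_eq_mul]
      apply le_of_eq
      ring
    linarith
  -- telescope
  have tele : ∀ j ≤ L, ∑ k ∈ range (Nn 0), SS K T X La 0 k ≤
      ∑ k ∈ range (Nn j), SS K T X La j k +
      ∑ i ∈ range j, lam ^ i * ∑ k ∈ Ico (T * Nn (i + 1)) (Nn i), (max (X i k) 0) ^ 2 +
      T * K ^ 2 * ∑ i ∈ range j, lam ^ i * ∑ k ∈ range (Nn (i + 1)),
        (La (i + 1) k + ∑ s ∈ range T, La i (T * k + s)) ^ 2 := by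
    intro j
    induction j with
    | zero => intro _; simp
    | succ j ih =>
      intro hj
      have h5 := ih (by omega)
      have h6 := level j hj
      rw [sum_range_succ, sum_range_succ, mul_add]
      linarith
  have hfin := tele L le_rfl
  rw [hNL, range_zero, sum_empty, zero_add] at hfin
  have hbase : ∑ k ∈ range (Nn 0), (max (X 0 k) 0) ^ 2 = ∑ k ∈ range (Nn 0), SS K T X La 0 k := by
    refine sum_congr rfl fun k _ => ?_
    rw [SS]
  rw [hbase]
  exact hfin

end Pool.Agent.W_7d29a1_XT
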