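import Pool.Agent.W_7d29a1_f21.Ind

/-!
MP_7d29a1_pr, STORM X. The greedy count of (ES'): a path of cells (one cell per window, independent windows) with bounded
total variation meets rare cells rarely. Only the VISITED BAD cells are counted (generating function `Wg`), so that a
density `p` of bad cells gives a fraction `C p ^ (1/4)` of bad windows of the path.
-/

namespace Pool.Agent.W_7d29a1_XT

open MeasureTheory Finset
open Pool.Agent.W_7d29a1_f21 (lw)

noncomputable section

variable {ι : Type*}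

/-- The indicator of a bad cell. -/
def chi (Lam : ℕ → ℤ → (ι → ℝ) → ℝ) (u : ℝ) (k : ℕ) (b : ℤ) (g : ι → ℝ) : ℝ := if u ≤ Lam k b g then 1 else 0

/-- The generating function of the chains of visited bad cells in the windows `K - j, ..., K - 1`, seen from the cell `b`
at the window `K - j`. -/
def Wg (Lam : ℕ → ℤ → (ι → ℝ) → ℝ) (u r : ℝ) (B : Finset ℤ) (K : ℕ) : ℕ → ℤ → (ι → ℝ) → ℝ
  | 0, _, _ => 1
  | j + 1, b, g => 1 + Real.exp (-r) * (Wg Lam u r B K j b g - 1) +
      Real.exp 1 * ∑ b' ∈ B, chi Lam u (K - (j + 1)) b' g * Real.exp (-(r * |(b' : ℝ) - b|)) * Wg Lam u r B K j b' g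

variable {Lam : ℕ → ℤ → (ι → ℝ) → ℝ} {u r : ℝ} {B : Finset ℤ} {K : ℕ}

theorem chi_nonneg (k : ℕ) (b : ℤ) (g : ι → ℝ) : 0 ≤ chi Lam u k b g := by
  unfold chi
  split_ifs <;> norm_num

theorem chi_le_one (k : ℕ) (b : ℤ) (g : ι → ℝ) : chi Lam u k b g ≤ 1 := by
  unfold chi
  split_ifs <;> norm_num

theorem one_le_Wg (hr : 0 ≤ r) (j : ℕ) (b : ℤ) (g : ι → ℝ) : 1 ≤ Wg Lam u r B K j b g := by
  induction j generalizing b with
  | zero => exact le_rfl
  | succ j ih =>
    rw [Wg]
    have h1 : 0 ≤ Real.exp (-r) * (Wg Lam u r B K j b g - 1) :=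
      mul_nonneg (Real.exp_pos _).le (by linarith [ih b])
    have h2 : 0 ≤ ∑ b' ∈ B, chi Lam u (K - (j + 1)) b' g * Real.exp (-(r * |(b' : ℝ) - b|)) * Wg Lam u r B K j b' g :=
      sum_nonneg fun b' _ => mul_nonneg (mul_nonneg (chi_nonneg _ _ _) (Real.exp_pos _).le) (by linarith [ih b'])
    have h3 := mul_nonneg (Real.exp_pos 1).le h2
    linarith

/-- PATHWISE: the number of the visited bad cells of a path of cells. -/
theorem path_le (hr : 0 ≤ r) (g : ι → ℝ) (b : ℕ → ℤ) (hb : ∀ k < K, b k ∈ B) (j : ℕ) (hj : j ≤ K) (c : ℤ) :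
    Real.exp (∑ i ∈ range j, chi Lam u (K - j + i) (b (K - j + i)) g -
      r * (j + |(b (K - j) : ℝ) - c| + ∑ i ∈ range (j - 1), |(b (K - j + i + 1) : ℝ) - b (K - j + i)|)) ≤
      Wg Lam u r B K j c g := by
  induction j generalizing c with
  | zero =>
    have h1 : 0 ≤ |(b K : ℝ) - c| := abs_nonneg _
    simp only [range_zero, sum_empty, Nat.cast_zero, zero_add, Nat.zero_sub, add_zero, Nat.sub_zero, zero_sub, Wg]
    rw [Real.exp_le_one_iff]
    have := mul_nonneg hr h1
    linarith
  | succ j ih =>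
    have hk : K - (j + 1) + 1 = K - j := by omega
    have hsum : ∑ i ∈ range (j + 1), chi Lam u (K - (j + 1) + i) (b (K - (j + 1) + i)) g =
        chi Lam u (K - (j + 1)) (b (K - (j + 1))) g + ∑ i ∈ range j, chi Lam u (K - j + i) (b (K - j + i)) g := by
      rw [sum_range_succ', add_comm]
      congr 1
      refine sum_congr rfl fun i _ => ?_
      rw [show K - (j + 1) + (i + 1) = K - j + i by omega]
    set N : ℝ := ∑ i ∈ range j, chi Lam u (K - j + i) (b (K - j + i)) g with hN
    set b0 : ℤ := b (K - (j + 1)) with hb0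
    set TV : ℝ := ∑ i ∈ range (j + 1 - 1), |(b (K - (j + 1) + i + 1) : ℝ) - b (K - (j + 1) + i)| with hTV
    -- the remaining variation, with the first jump
    have hrest : ∀ c' : ℤ, |(b (K - j) : ℝ) - c'| + ∑ i ∈ range (j - 1), |(b (K - j + i + 1) : ℝ) - b (K - j + i)| ≤
        |(b0 : ℝ) - c'| + TV ∨ j = 0 := by
      intro c'
      rcases Nat.eq_zero_or_pos j with h0 | h0
      · exact Or.inr h0
      · left
        have e1 : TV = |(b (K - j) : ℝ) - b0| + ∑ i ∈ range (j - 1), |(b (K - j + i + 1) : ℝ) - b (K - j + i)| := by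
          rw [hTV, show j + 1 - 1 = (j - 1) + 1 by omega, sum_range_succ', add_comm]
          congr 1
          · rw [hb0, add_zero, hk]
          · refine sum_congr rfl fun i _ => ?_
            rw [show K - (j + 1) + (i + 1) = K - j + i by omega]
        rw [e1]
        have := abs_add_le ((b (K - j) : ℝ) - b0) ((b0 : ℝ) - c')
        rw [show (b (K - j) : ℝ) - b0 + (b0 - c') = b (K - j) - c' by ring] at this
        linarith
    have hTV0 : 0 ≤ TV := sum_nonneg fun _ _ => abs_nonneg _
    have hih : ∀ c' : ℤ, Real.exp (N - r * (j + (|(b0 : ℝ) - c'| + TV))) ≤ Wg Lam u r B K j c' g := by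
      intro c'
      rcases hrest c' with h | h
      · refine le_trans (Real.exp_le_exp.2 ?_) (ih (by omega) c')
        have := mul_le_mul_of_nonneg_left h hr
        rw [hN]
        nlinarith
      · have h1 := one_le_Wg (Lam := Lam) (u := u) (B := B) (K := K) hr j c' g
        refine le_trans ?_ h1
        rw [Real.exp_le_one_iff, hN, h, range_zero, sum_empty]
        have := mul_nonneg hr (add_nonneg (Nat.cast_nonneg (α := ℝ) 0) (add_nonneg (abs_nonneg ((b0 : ℝ) - c')) hTV0))
        linarith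
    rw [hsum, Wg]
    have hW1 := one_le_Wg (Lam := Lam) (u := u) (B := B) (K := K) hr j c g
    have hS0 : ∀ b' ∈ B, 0 ≤ chi Lam u (K - (j + 1)) b' g * Real.exp (-(r * |(b' : ℝ) - c|)) * Wg Lam u r B K j b' g :=
      fun b' _ => mul_nonneg (mul_nonneg (chi_nonneg _ _ _) (Real.exp_pos _).le)
        (by linarith [one_le_Wg (Lam := Lam) (u := u) (B := B) (K := K) hr j b' g])
    by_cases hbad : u ≤ Lam (K - (j + 1)) b0 g
    · have hc1 : chi Lam u (K - (j + 1)) b0 g = 1 := by unfold chi; rw [if_pos hbad]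
      have h1 := single_le_sum hS0 (hb (K - (j + 1)) (by omega))
      rw [← hb0, hc1, one_mul] at h1
      have h2 := hih b0
      rw [sub_self, abs_zero, zero_add] at h2
      have h3 : Real.exp (1 + N - r * ((j + 1 : ℕ) + |(b0 : ℝ) - c| + TV)) ≤
          Real.exp 1 * (Real.exp (-(r * |(b0 : ℝ) - c|)) * Real.exp (N - r * (j + TV))) := by
        rw [← Real.exp_add, ← Real.exp_add, Real.exp_le_exp]
        push_cast
        nlinarith
      rw [hc1]
      refine h3.trans ?_
      have h4 := mul_le_mul_of_nonneg_left h2 (Real.exp_pos (-(r * |(b0 : ℝ) - c|))).le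
      have h5 := mul_le_mul_of_nonneg_left (h4.trans h1) (Real.exp_pos 1).le
      have h6 : 0 ≤ Real.exp (-r) * (Wg Lam u r B K j c g - 1) := mul_nonneg (Real.exp_pos _).le (by linarith)
      linarith
    · have hc0 : chi Lam u (K - (j + 1)) b0 g = 0 := by unfold chi; rw [if_neg hbad]
      have h2 := hih c
      have h3 : Real.exp (0 + N - r * ((j + 1 : ℕ) + |(b0 : ℝ) - c| + TV)) =
          Real.exp (-r) * Real.exp (N - r * (j + (|(b0 : ℝ) - c| + TV))) := by
        rw [← Real.exp_add]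
        congr 1
        push_cast
        ring
      rw [hc0, h3]
      have h4 := mul_le_mul_of_nonneg_left h2 (Real.exp_pos (-r)).le
      have h5 : Real.exp (-r) ≤ 1 := Real.exp_le_one_iff.2 (by linarith)
      have h6 := mul_nonneg (Real.exp_pos 1).le (sum_nonneg hS0)
      nlinarith

/-! ### Expectation -/

theorem Wg_bdd (hr : 0 ≤ r) (j : ℕ) : ∃ C : ℝ, ∀ (b : ℤ) (g : ι → ℝ), Wg Lam u r B K j b g ≤ C := by
  induction j with
  | zero => exact ⟨1, fun _ _ => le_rfl⟩
  | succ j ih =>
    obtain ⟨C, hC⟩ := ih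
    refine ⟨1 + 1 * C + Real.exp 1 * ∑ _b' ∈ B, C, fun b g => ?_⟩
    rw [Wg]
    have h1 : Real.exp (-r) ≤ 1 := Real.exp_le_one_iff.2 (by linarith)
    have hW := one_le_Wg (Lam := Lam) (u := u) (B := B) (K := K) hr j b g
    have hCW := hC b g
    have h2 : Real.exp (-r) * (Wg Lam u r B K j b g - 1) ≤ 1 * C := by
      have h3 := mul_le_mul_of_nonneg_right h1 (by linarith : (0 : ℝ) ≤ Wg Lam u r B K j b g - 1)
      linarith
    have h4 : ∑ b' ∈ B, chi Lam u (K - (j + 1)) b' g * Real.exp (-(r * |(b' : ℝ) - b|)) * Wg Lam u r B K j b' g ≤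
        ∑ _b' ∈ B, C := by
      refine sum_le_sum fun b' _ => ?_
      have h5 : Real.exp (-(r * |(b' : ℝ) - b|)) ≤ 1 := by
        rw [Real.exp_le_one_iff]
        have := mul_nonneg hr (abs_nonneg ((b' : ℝ) - b))
        linarith
      have h6 := one_le_Wg (Lam := Lam) (u := u) (B := B) (K := K) hr j b' g
      have h7 : chi Lam u (K - (j + 1)) b' g * Real.exp (-(r * |(b' : ℝ) - b|)) ≤ 1 :=
        mul_le_one₀ (chi_le_one _ _ _) (Real.exp_pos _).le h5
      have h8 := mul_le_mul_of_nonneg_right h7 (by linarith : (0 : ℝ) ≤ Wg Lam u r B K j b' g)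
      linarith [hC b' g]
    have h9 := mul_le_mul_of_nonneg_left h4 (Real.exp_pos 1).le
    linarith

theorem measurable_chi (hm : ∀ k b, Measurable (Lam k b)) (k : ℕ) (b : ℤ) : Measurable (chi Lam u k b) := by
  unfold chi
  exact Measurable.ite (measurableSet_le measurable_const (hm k b)) measurable_const measurable_const

theorem measurable_Wg (hm : ∀ k b, Measurable (Lam k b)) (j : ℕ) (b : ℤ) : Measurable (Wg Lam u r B K j b) := by
  induction j generalizing b with
  | zero => exact measurable_const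
  | succ j ih =>
    have : Wg Lam u r B K (j + 1) b = fun g => 1 + Real.exp (-r) * (Wg Lam u r B K j b g - 1) +
      Real.exp 1 * ∑ b' ∈ B, chi Lam u (K - (j + 1)) b' g * Real.exp (-(r * |(b' : ℝ) - b|)) *
        Wg Lam u r B K j b' g := by
      funext g
      rw [Wg]
    rw [this]
    exact ((measurable_const.add (((ih b).sub measurable_const).const_mul _))).add
      ((Finset.measurable_sum _ fun b' _ => ((measurable_chi hm _ b').mul measurable_const).mul (ih b')).const_mul _)

theorem dep_chi {Rk : ℕ → Set ι} (hdep : ∀ k b, DependsOn (Lam k b) (Rk k)) (k : ℕ) (b : ℤ) :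
    DependsOn (chi Lam u k b) (Rk k) := by
  intro g g' h
  unfold chi
  rw [hdep k b h]

theorem dep_Wg {Rk : ℕ → Set ι} (hdep : ∀ k b, DependsOn (Lam k b) (Rk k)) (j : ℕ) (hj : j ≤ K) (b : ℤ) :
    DependsOn (Wg Lam u r B K j b) (⋃ i ∈ {i : ℕ | K - j ≤ i ∧ i < K}, Rk i) := by
  induction j generalizing b with
  | zero => exact fun _ _ _ => rfl
  | succ j ih =>
    intro g g' h
    have hsub : (⋃ i ∈ {i : ℕ | K - j ≤ i ∧ i < K}, Rk i) ⊆ ⋃ i ∈ {i : ℕ | K - (j + 1) ≤ i ∧ i < K}, Rk i := by
      refine Set.biUnion_subset_biUnion_left fun i hi => ?_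
      simp only [Set.mem_ofPred_eq] at hi ⊢
      omega
    have hW : ∀ b, Wg Lam u r B K j b g = Wg Lam u r B K j b g' := fun b =>
      ih (by omega) b fun p hp => h p (hsub hp)
    have hc : ∀ b, chi Lam u (K - (j + 1)) b g = chi Lam u (K - (j + 1)) b g' := fun b =>
      dep_chi hdep _ b fun p hp => h p (Set.mem_biUnion (show K - (j + 1) ∈ {i : ℕ | K - (j + 1) ≤ i ∧ i < K} from
        ⟨le_rfl, by omega⟩) hp)
    rw [Wg, Wg, hW b]
    congr 2
    exact sum_congr rfl fun b' _ => by rw [hW b', hc b']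

theorem exp_neg_lt_one {r : ℝ} (hr : 0 < r) : Real.exp (-r) < 1 := by
  have := Real.exp_lt_exp.2 (show -r < 0 by linarith)
  rwa [Real.exp_zero] at this

/-- Geometric sums over finite sets of cells. -/
theorem sum_exp_le (hr : 0 < r) (B : Finset ℤ) (b : ℤ) :
    ∑ b' ∈ B, Real.exp (-(r * |(b' : ℝ) - b|)) ≤ 2 / (1 - Real.exp (-r)) := by
  set x : ℝ := Real.exp (-r) with hx
  have hx0 : 0 ≤ x := (Real.exp_pos _).le
  have hx1 : x < 1 := exp_neg_lt_one hr
  have hgeo : ∀ (S : Finset ℤ) (f : ℤ → ℕ), Set.InjOn f S → ∑ b' ∈ S, x ^ f b' ≤ 1 / (1 - x) := by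
    intro S f hf
    rw [← sum_image (f := fun n => x ^ n) (g := f) hf, one_div, ← tsum_geometric_of_lt_one hx0 hx1]
    exact (summable_geometric_of_lt_one hx0 hx1).sum_le_tsum _ fun _ _ => by positivity
  have hpow : ∀ b' : ℤ, Real.exp (-(r * |(b' : ℝ) - b|)) = x ^ (b' - b).natAbs := by
    intro b'
    rw [hx, ← Real.exp_nat_mul]
    congr 1
    rw [Nat.cast_natAbs]
    push_cast
    ring
  rw [sum_congr rfl fun b' _ => hpow b', ← sum_filter_add_sum_filter_not B (fun b' => b ≤ b')]
  have h1 := hgeo (B.filter fun b' => b ≤ b') (fun b' => (b' - b).natAbs) (by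
    intro y hy z hz h
    simp only [coe_filter, Set.mem_ofPred_eq] at hy hz
    simp only at h
    omega)
  have h2 := hgeo (B.filter fun b' => ¬b ≤ b') (fun b' => (b' - b).natAbs) (by
    intro y hy z hz h
    simp only [coe_filter, Set.mem_ofPred_eq] at hy hz
    simp only at h
    omega)
  have : 2 / (1 - x) = 1 / (1 - x) + 1 / (1 - x) := by ring
  rw [this]
  exact add_le_add h1 h2

variable {μ : Measure ℝ} [IsProbabilityMeasure μ]

/-- EXPECTATION of the generating function. -/
theorem mean_Wg {Rk : ℕ → Set ι} (hdisj : ∀ i j, i ≠ j → Disjoint (Rk i) (Rk j)) (hm : ∀ k b, Measurable (Lam k b))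
    (hdep : ∀ k b, DependsOn (Lam k b) (Rk k)) (hr : 0 < r) {p q : ℝ}
    (hp : ∀ k < K, ∀ b ∈ B, ∫ g, chi Lam u k b g ∂(lw ι μ) ≤ p) (hp0 : 0 ≤ p)
    (hq : Real.exp 1 * p * (2 / (1 - Real.exp (-r))) ≤ q * (1 - Real.exp (-r))) (hq1 : q ≤ 1 / 2) (j : ℕ) (hj : j ≤ K)
    (b : ℤ) : ∫ g, Wg Lam u r B K j b g ∂(lw ι μ) ≤ 1 + 2 * q := by
  have hx1 : Real.exp (-r) < 1 := exp_neg_lt_one hr
  have hx0 : 0 < Real.exp (-r) := Real.exp_pos _
  have hq0 : 0 ≤ q := by
    by_contra hcon
    push Not at hcon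
    have h1 : 0 ≤ Real.exp 1 * p * (2 / (1 - Real.exp (-r))) :=
      mul_nonneg (mul_nonneg (Real.exp_pos 1).le hp0) (div_nonneg two_pos.le (by linarith))
    have h2 : q * (1 - Real.exp (-r)) < 0 := mul_neg_of_neg_of_pos hcon (by linarith)
    linarith
  have hint : ∀ (j : ℕ) (b : ℤ), Integrable (Wg Lam u r B K j b) (lw ι μ) := by
    intro j b
    obtain ⟨C, hC⟩ := Wg_bdd (Lam := Lam) (u := u) (B := B) (K := K) hr.le j
    refine Integrable.of_bound (measurable_Wg hm j b).aestronglyMeasurable C (Filter.Eventually.of_forall fun g => ?_)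
    rw [Real.norm_eq_abs, abs_of_nonneg (by linarith [one_le_Wg (Lam := Lam) (u := u) (B := B) (K := K) hr.le j b g])]
    exact hC b g
  induction j generalizing b with
  | zero =>
    simp only [Wg]
    rw [integral_const, probReal_univ, one_smul]
    linarith
  | succ j ih =>
    set k : ℕ := K - (j + 1) with hk
    have hkK : k < K := by omega
    have hcW : ∀ b' : ℤ, Integrable (fun g => chi Lam u k b' g * Wg Lam u r B K j b' g) (lw ι μ) := by
      intro b'
      refine (hint j b').bdd_mul (c := 1) (measurable_chi hm k b').aestronglyMeasurable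
        (Filter.Eventually.of_forall fun g => ?_)
      rw [Real.norm_eq_abs, abs_of_nonneg (chi_nonneg _ _ _)]
      exact chi_le_one _ _ _
    have hind : ∀ b' : ℤ, ∫ g, chi Lam u k b' g * Wg Lam u r B K j b' g ∂(lw ι μ) =
        (∫ g, chi Lam u k b' g ∂(lw ι μ)) * ∫ g, Wg Lam u r B K j b' g ∂(lw ι μ) := by
      intro b'
      refine Pool.Agent.W_7d29a1_f21.integral_mul_indep (Rk k) (measurable_chi hm k b') (measurable_Wg hm j b')
        (dep_chi hdep k b') fun g g' h => dep_Wg hdep j (by omega) b' fun p hp => h p ?_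
      obtain ⟨i, hi, hpi⟩ := Set.mem_iUnion₂.1 hp
      simp only [Set.mem_ofPred_eq] at hi
      intro hpk
      exact (Set.disjoint_left.1 (hdisj i k (by omega))) hpi hpk
    have hval : ∫ g, Wg Lam u r B K (j + 1) b g ∂(lw ι μ) = 1 + Real.exp (-r) * (∫ g, Wg Lam u r B K j b g ∂(lw ι μ) - 1) +
        Real.exp 1 * ∑ b' ∈ B, Real.exp (-(r * |(b' : ℝ) - b|)) *
          ((∫ g, chi Lam u k b' g ∂(lw ι μ)) * ∫ g, Wg Lam u r B K j b' g ∂(lw ι μ)) := by
      have e1 : (fun g => Wg Lam u r B K (j + 1) b g) = fun g => (1 + Real.exp (-r) * (Wg Lam u r B K j b g - 1)) +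
          Real.exp 1 * ∑ b' ∈ B, Real.exp (-(r * |(b' : ℝ) - b|)) * (chi Lam u k b' g * Wg Lam u r B K j b' g) := by
        funext g
        rw [Wg]
        congr 2
        exact sum_congr rfl fun b' _ => by rw [hk]; ring
      rw [e1]
      have i1 : Integrable (fun g => 1 + Real.exp (-r) * (Wg Lam u r B K j b g - 1)) (lw ι μ) :=
        (integrable_const _).add (((hint j b).sub (integrable_const _)).const_mul _)
      have i2 : ∀ b' ∈ B, Integrable (fun g => Real.exp (-(r * |(b' : ℝ) - b|)) *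
          (chi Lam u k b' g * Wg Lam u r B K j b' g)) (lw ι μ) := fun b' _ => (hcW b').const_mul _
      rw [integral_add i1 ((integrable_finsetSum _ i2).const_mul _), integral_const_mul, integral_finsetSum _ i2]
      congr 1
      · have i3 : Integrable (fun g => Wg Lam u r B K j b g - 1) (lw ι μ) := (hint j b).sub (integrable_const _)
        have i4 : Integrable (fun g => Real.exp (-r) * (Wg Lam u r B K j b g - 1)) (lw ι μ) := i3.const_mul _
        have e2 : ∫ g, Wg Lam u r B K j b g - 1 ∂(lw ι μ) = ∫ g, Wg Lam u r B K j b g ∂(lw ι μ) - 1 := by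
          rw [integral_sub (hint j b) (integrable_const _), integral_const, probReal_univ, one_smul]
        rw [integral_add (integrable_const _) i4, integral_const_mul, e2, integral_const, probReal_univ, one_smul]
      · congr 1
        refine sum_congr rfl fun b' _ => ?_
        rw [integral_const_mul, hind b']
    rw [hval]
    have hsum : ∑ b' ∈ B, Real.exp (-(r * |(b' : ℝ) - b|)) *
        ((∫ g, chi Lam u k b' g ∂(lw ι μ)) * ∫ g, Wg Lam u r B K j b' g ∂(lw ι μ)) ≤
        (2 / (1 - Real.exp (-r))) * (p * (1 + 2 * q)) := by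
      have h1 : ∀ b' ∈ B, Real.exp (-(r * |(b' : ℝ) - b|)) *
          ((∫ g, chi Lam u k b' g ∂(lw ι μ)) * ∫ g, Wg Lam u r B K j b' g ∂(lw ι μ)) ≤
          Real.exp (-(r * |(b' : ℝ) - b|)) * (p * (1 + 2 * q)) := by
        intro b' hb'
        refine mul_le_mul_of_nonneg_left ?_ (Real.exp_pos _).le
        refine mul_le_mul (hp k hkK b' hb') (ih (by omega) b') ?_ hp0
        exact integral_nonneg fun g => by
          have := one_le_Wg (Lam := Lam) (u := u) (B := B) (K := K) hr.le j b' g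
          exact le_trans zero_le_one this
      refine (sum_le_sum h1).trans ?_
      rw [← sum_mul]
      exact mul_le_mul_of_nonneg_right (sum_exp_le hr B b) (mul_nonneg hp0 (by linarith))
    have h2 := ih (by omega) b
    have h3 : Real.exp (-r) * (∫ g, Wg Lam u r B K j b g ∂(lw ι μ) - 1) ≤ Real.exp (-r) * (2 * q) :=
      mul_le_mul_of_nonneg_left (by linarith) hx0.le
    have h4 := mul_le_mul_of_nonneg_left hsum (Real.exp_pos 1).le
    have h5 : Real.exp 1 * ((2 / (1 - Real.exp (-r))) * (p * (1 + 2 * q))) ≤ q * (1 - Real.exp (-r)) * 2 := by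
      have h6 : Real.exp 1 * ((2 / (1 - Real.exp (-r))) * (p * (1 + 2 * q))) =
          Real.exp 1 * p * (2 / (1 - Real.exp (-r))) * (1 + 2 * q) := by ring
      rw [h6]
      exact mul_le_mul hq (by linarith) (by linarith) (mul_nonneg hq0 (by linarith))
    linarith

/-- The number of the visited bad cells of a path. -/
theorem count_le (hr : 0 ≤ r) (g : ι → ℝ) (b : ℕ → ℤ) (hb : ∀ k < K, b k ∈ B) (c : ℤ) :
    ∑ k ∈ range K, chi Lam u k (b k) g ≤
      r * (K + |(b 0 : ℝ) - c| + ∑ k ∈ range (K - 1), |(b (k + 1) : ℝ) - b k|) + (Wg Lam u r B K K c g - 1) := by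
  have h := path_le (Lam := Lam) (u := u) hr g b hb K le_rfl c
  simp only [Nat.sub_self, zero_add] at h
  have h1 := Real.add_one_le_exp (∑ k ∈ range K, chi Lam u k (b k) g -
    r * (K + |(b 0 : ℝ) - c| + ∑ k ∈ range (K - 1), |(b (k + 1) : ℝ) - b k|))
  linarith

end

end Pool.Agent.W_7d29a1_XT
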