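import Mathlib

/-!
MP_7d29a1_pr, STORM X. The tree lemma of (ES'): `T`-adic windows above the slabs; `X` = cost of the polymer in a window,
`Ph` = deterministic price of its displacement, `La` = luck. Pure statement.
-/

namespace Pool.Agent.W_7d29a1_XT

open Finset

/-- Sum over the children. -/
theorem sum_children (T : ℕ) (g : ℕ → ℝ) (a : ℕ) :
    ∑ k ∈ range (a * T), g k = ∑ k ∈ range a, ∑ r ∈ range T, g (T * k + r) := by
  induction a with
  | zero => simp
  | succ a ih =>
    rw [sum_range_succ, ← ih, show (a + 1) * T = a * T + T by ring, sum_range_add]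
    congr 1
    refine sum_congr rfl fun r _ => ?_
    rw [mul_comm a T]

/-- One window: a child of large cost forces a window of larger cost. -/
theorem step_one {c C C3 ep et K x X1 P Ph L S : ℝ} (hc : 0 < c) (hC : 0 < C) (hC3 : 0 < C3) (hep : 0 ≤ ep)
    (h1 : C * ep ≤ c / 16) (h2 : C * C3 * et ≤ c / 16) (_het : 0 < et) (hK : 8 * (C / c * (ep + C3) + 1) ≤ K)
    (hL : 0 ≤ L) (hx : K * L ≤ x) (hS : c * S ≤ X1 - x + L) (hPh : c * Ph ≤ x + L)
    (hP : P ≤ ep * Ph + C3 * S) (hX1 : X1 ≤ C * P + L) (hlow : x - L ≤ X1) : (1 + et) * x ≤ X1 := by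
  by_contra hcon
  push Not at hcon
  have hK8 : 8 ≤ K := by
    have : 0 ≤ C / c * (ep + C3) := by positivity
    linarith
  have hx0 : 0 ≤ x := (mul_nonneg (by linarith) hL).trans hx
  have hLx : 8 * L ≤ x := (mul_le_mul_of_nonneg_right hK8 hL).trans hx
  have e1 : c * S ≤ et * x + L := by linarith
  have e2 : C * ep * (c * Ph) ≤ C * ep * (x + L) := mul_le_mul_of_nonneg_left hPh (by positivity)
  have e3 : C * C3 * (c * S) ≤ C * C3 * (et * x + L) := mul_le_mul_of_nonneg_left e1 (by positivity)
  have e4 : c * (C * P) ≤ c * (x / 8) + C * (ep + C3) * L := by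
    have e5 : c * (C * P) ≤ c * (C * (ep * Ph + C3 * S)) :=
      mul_le_mul_of_nonneg_left (mul_le_mul_of_nonneg_left hP hC.le) hc.le
    have e6 : C * ep * x ≤ c / 16 * x := mul_le_mul_of_nonneg_right h1 hx0
    have e7 : C * C3 * et * x ≤ c / 16 * x := mul_le_mul_of_nonneg_right h2 hx0
    nlinarith
  have e8 : C * P ≤ x / 8 + C / c * (ep + C3) * L := by
    have : c * (C * P) ≤ c * (x / 8 + C / c * (ep + C3) * L) := by
      have h : c * (x / 8 + C / c * (ep + C3) * L) = c * (x / 8) + C * (ep + C3) * L := by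
        field_simp
      rw [h]
      exact e4
    exact le_of_mul_le_mul_left this hc
  have e9 : (C / c * (ep + C3) + 1) * L ≤ x / 8 := by
    have := mul_le_mul_of_nonneg_right hK hL
    nlinarith
  have e10 : X1 ≤ x / 4 := by nlinarith
  have e11 : x ≤ 0 := by linarith
  have e12 : x = 0 := le_antisymm e11 hx0
  rw [e12] at hcon hLx hlow
  linarith

/-- The chained part of the sum of squares. -/
noncomputable def SS (K : ℝ) (T : ℕ) (X La : ℕ → ℕ → ℝ) : ℕ → ℕ → ℝ
  | 0, k => (max (X 0 k) 0) ^ 2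
  | i + 1, k => ∑ r ∈ range T, if K * (La (i + 1) k + ∑ s ∈ range T, La i (T * k + s)) ≤ X i (T * k + r) then
      SS K T X La i (T * k + r) else 0

theorem SS_nonneg (K : ℝ) (T : ℕ) (X La : ℕ → ℕ → ℝ) (i k : ℕ) : 0 ≤ SS K T X La i k := by
  induction i generalizing k with
  | zero => exact sq_nonneg _
  | succ i ih =>
    refine sum_nonneg fun r _ => ?_
    split_ifs
    · exact ih _
    · exact le_rfl

/-- **The tree lemma.** -/
theorem tree {c C C3 : ℝ} (hc : 0 < c) (hC : 0 < C) (hC3 : 0 < C3) :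
    ∃ ep K lam : ℝ, 0 < ep ∧ 1 ≤ K ∧ 0 < lam ∧ lam < 1 ∧
      ∀ (T R L : ℕ) (X Ph La : ℕ → ℕ → ℝ),
        (∀ i ≤ L, ∀ k < R * T ^ (L - i), 0 ≤ La i k ∧ 0 ≤ Ph i k ∧ c * Ph i k - La i k ≤ X i k ∧
          X i k ≤ C * Ph i k + La i k) →
        (∀ i < L, ∀ k < R * T ^ (L - (i + 1)), ∑ r ∈ range T, X i (T * k + r) ≤ X (i + 1) k + La (i + 1) k) →
        (∀ i < L, ∀ k < R * T ^ (L - (i + 1)), ∀ r < T,
          Ph (i + 1) k ≤ ep * Ph i (T * k + r) + C3 * ∑ s ∈ (range T).erase r, Ph i (T * k + s)) →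
        ∑ k ∈ range (R * T ^ L), (max (X 0 k) 0) ^ 2 ≤
          lam ^ L * ∑ k ∈ range R, (max (X L k) 0) ^ 2 +
          T * K ^ 2 * ∑ i ∈ range L, lam ^ i *
            ∑ k ∈ range (R * T ^ (L - (i + 1))), (La (i + 1) k + ∑ s ∈ range T, La i (T * k + s)) ^ 2 := by
  set ep : ℝ := c / (16 * C) with hep
  set et : ℝ := c / (16 * (C * C3)) with het
  have hep0 : 0 < ep := by positivity
  have het0 : 0 < et := by positivity
  set K : ℝ := max (8 * (C / c * (ep + C3) + 1)) (2 / et) with hK
  have hK1 : 8 * (C / c * (ep + C3) + 1) ≤ K := le_max_left _ _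
  have hK2 : 2 / et ≤ K := le_max_right _ _
  have hK8 : 8 ≤ K := by
    have : 0 ≤ C / c * (ep + C3) := by positivity
    linarith
  have hK0 : 0 < K := by linarith
  have hKet : 1 / K ≤ et / 2 := by
    rw [div_le_div_iff₀ hK0 two_pos]
    rw [div_le_iff₀ het0] at hK2
    linarith
  set lam : ℝ := (1 + et / 2) / (1 + et) with hlam
  have hlam0 : 0 < lam := by positivity
  have hlam1 : lam < 1 := by
    rw [hlam, div_lt_one (by positivity)]
    linarith
  refine ⟨ep, K, lam, hep0, by linarith, hlam0, hlam1, ?_⟩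
  intro T R L X Ph La h2 h1 h3
  have hCep : C * ep ≤ c / 16 := by
    rw [hep]
    apply le_of_eq
    field_simp
  have hCet : C * C3 * et ≤ c / 16 := by
    rw [het]
    apply le_of_eq
    field_simp
  -- index bookkeeping
  have hidx : ∀ i < L, ∀ k < R * T ^ (L - (i + 1)), ∀ r < T, T * k + r < R * T ^ (L - i) := by
    intro i hi k hk r hr
    have e : R * T ^ (L - i) = T * (R * T ^ (L - (i + 1))) := by
      rw [show L - i = (L - (i + 1)) + 1 by omega, pow_succ]
      ring
    rw [e]
    calc T * k + r < T * k + T := by omega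
      _ = T * (k + 1) := by ring
      _ ≤ T * (R * T ^ (L - (i + 1))) := Nat.mul_le_mul_left _ hk
  -- Step 2
  have step2 : ∀ i < L, ∀ k < R * T ^ (L - (i + 1)),
      ∑ r ∈ range T, (if K * (La (i + 1) k + ∑ s ∈ range T, La i (T * k + s)) ≤ X i (T * k + r) then
        (max (X i (T * k + r)) 0) ^ 2 else 0) ≤ lam * (max (X (i + 1) k) 0) ^ 2 := by
    intro i hi k hk
    set Lp : ℝ := La (i + 1) k + ∑ s ∈ range T, La i (T * k + s) with hLp
    have hch : ∀ r < T, 0 ≤ La i (T * k + r) ∧ 0 ≤ Ph i (T * k + r) ∧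
        c * Ph i (T * k + r) - La i (T * k + r) ≤ X i (T * k + r) ∧
        X i (T * k + r) ≤ C * Ph i (T * k + r) + La i (T * k + r) :=
      fun r hr => h2 i hi.le _ (hidx i hi k hk r hr)
    have hpar := h2 (i + 1) hi k hk
    have hsumLa : ∀ r ∈ range T, 0 ≤ La i (T * k + r) := fun r hr => (hch r (mem_range.1 hr)).1
    have hLa0 : 0 ≤ ∑ s ∈ range T, La i (T * k + s) := sum_nonneg hsumLa
    have hLp0 : 0 ≤ Lp := add_nonneg hpar.1 hLa0
    have hH1 := h1 i hi k hk
    have key : ∀ r < T, K * Lp ≤ X i (T * k + r) → (1 + et) * X i (T * k + r) ≤ X (i + 1) k := by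
      intro r hr hx
      have hrm : r ∈ range T := mem_range.2 hr
      have s1 := add_sum_erase (range T) (fun s => X i (T * k + s)) hrm
      have s2 := add_sum_erase (range T) (fun s => La i (T * k + s)) hrm
      have s3 : ∑ s ∈ (range T).erase r, (c * Ph i (T * k + s) - La i (T * k + s)) ≤
          ∑ s ∈ (range T).erase r, X i (T * k + s) :=
        sum_le_sum fun s hs => (hch s (mem_range.1 (mem_of_mem_erase hs))).2.2.1
      rw [sum_sub_distrib, ← mul_sum] at s3
      have s4 : 0 ≤ ∑ s ∈ (range T).erase r, Ph i (T * k + s) :=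
        sum_nonneg fun s hs => (hch s (mem_range.1 (mem_of_mem_erase hs))).2.1
      have s5 := (hch r hr).2.2.1
      have s6 := (hch r hr).1
      have s7 : 0 ≤ c * ∑ s ∈ (range T).erase r, Ph i (T * k + s) := mul_nonneg hc.le s4
      have s8 : 0 ≤ ∑ s ∈ (range T).erase r, La i (T * k + s) :=
        sum_nonneg fun s hs => (hch s (mem_range.1 (mem_of_mem_erase hs))).1
      have hX1 : X (i + 1) k ≤ C * Ph (i + 1) k + Lp := by
        have := hpar.2.2.2
        linarith
      refine step_one (P := Ph (i + 1) k) (Ph := Ph i (T * k + r)) (S := ∑ s ∈ (range T).erase r, Ph i (T * k + s))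
        (L := Lp) hc hC hC3 hep0.le hCep hCet het0 hK1 hLp0 hx ?_ ?_ (h3 i hi k hk r hr) hX1 ?_
      · linarith
      · linarith [hpar.1]
      · linarith
    by_cases hex : ∃ r < T, K * Lp ≤ X i (T * k + r)
    · obtain ⟨r0, hr0, hx0⟩ := hex
      have hXr0 : 0 ≤ X i (T * k + r0) := (mul_nonneg hK0.le hLp0).trans hx0
      have hXP : 0 ≤ X (i + 1) k := by
        have := key r0 hr0 hx0
        have h := mul_nonneg (by positivity : (0 : ℝ) ≤ 1 + et) hXr0
        linarith
      have hKL : K * Lp ≤ X (i + 1) k := by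
        have := key r0 hr0 hx0
        nlinarith
      have hLX : Lp ≤ et / 2 * X (i + 1) k := by
        have h4 : Lp ≤ 1 / K * X (i + 1) k := by
          rw [div_mul_eq_mul_div, one_mul, le_div_iff₀ hK0]
          linarith
        exact h4.trans (mul_le_mul_of_nonneg_right hKet hXP)
      have hb1 : ∀ r ∈ range T, (if K * Lp ≤ X i (T * k + r) then (max (X i (T * k + r)) 0) ^ 2 else 0) ≤
          X (i + 1) k / (1 + et) * (X i (T * k + r) + La i (T * k + r)) := by
        intro r hr
        have hr' := mem_range.1 hr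
        have h5 := (hch r hr').2.2.1
        have h6 := (hch r hr').1
        have h7 := mul_nonneg hc.le (hch r hr').2.1
        have h8 : 0 ≤ X i (T * k + r) + La i (T * k + r) := by linarith
        split_ifs with hx
        · have hXr : 0 ≤ X i (T * k + r) := (mul_nonneg hK0.le hLp0).trans hx
          rw [max_eq_left hXr, sq]
          have h9 : X i (T * k + r) ≤ X (i + 1) k / (1 + et) := by
            rw [le_div_iff₀ (by positivity)]
            linarith [key r hr' hx]
          exact mul_le_mul h9 (by linarith) hXr (div_nonneg hXP (by positivity))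
        · exact mul_nonneg (div_nonneg hXP (by positivity)) h8
      refine (sum_le_sum hb1).trans ?_
      rw [← mul_sum, sum_add_distrib, max_eq_left hXP]
      have h10 : ∑ r ∈ range T, X i (T * k + r) + ∑ r ∈ range T, La i (T * k + r) ≤ (1 + et / 2) * X (i + 1) k := by
        linarith
      calc X (i + 1) k / (1 + et) * (∑ r ∈ range T, X i (T * k + r) + ∑ r ∈ range T, La i (T * k + r))
          ≤ X (i + 1) k / (1 + et) * ((1 + et / 2) * X (i + 1) k) :=
            mul_le_mul_of_nonneg_left h10 (div_nonneg hXP (by positivity))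
        _ = lam * X (i + 1) k ^ 2 := by
            rw [hlam]
            field_simp
    · push Not at hex
      have hz : ∑ r ∈ range T, (if K * Lp ≤ X i (T * k + r) then (max (X i (T * k + r)) 0) ^ 2 else 0) = 0 := by
        refine sum_eq_zero fun r hr => ?_
        rw [if_neg (not_le.2 (hex r (mem_range.1 hr)))]
      rw [hz]
      positivity
  -- Step 3: the chained sums
  have stepS : ∀ i ≤ L, ∀ k < R * T ^ (L - i), SS K T X La i k ≤ lam ^ i * (max (X i k) 0) ^ 2 := by
    intro i
    induction i with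
    | zero =>
      intro _ k _
      simp [SS]
    | succ i ih =>
      intro hi k hk
      have hi' : i < L := hi
      rw [SS]
      have hb : ∀ r ∈ range T, (if K * (La (i + 1) k + ∑ s ∈ range T, La i (T * k + s)) ≤ X i (T * k + r) then
          SS K T X La i (T * k + r) else 0) ≤ lam ^ i *
          (if K * (La (i + 1) k + ∑ s ∈ range T, La i (T * k + s)) ≤ X i (T * k + r) then
          (max (X i (T * k + r)) 0) ^ 2 else 0) := by
        intro r hr
        split_ifs
        · exact ih hi'.le _ (hidx i hi' k hk r (mem_range.1 hr))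
        · simp
      refine (sum_le_sum hb).trans ?_
      rw [← mul_sum, pow_succ, mul_assoc]
      exact mul_le_mul_of_nonneg_left (step2 i hi' k hk) (by positivity)
  -- levels
  have level : ∀ i < L, ∑ k ∈ range (R * T ^ (L - i)), SS K T X La i k ≤
      ∑ k ∈ range (R * T ^ (L - (i + 1))), SS K T X La (i + 1) k +
      T * K ^ 2 * (lam ^ i * ∑ k ∈ range (R * T ^ (L - (i + 1))),
        (La (i + 1) k + ∑ s ∈ range T, La i (T * k + s)) ^ 2) := by
    intro i hi
    have e : R * T ^ (L - i) = R * T ^ (L - (i + 1)) * T := by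
      rw [show L - i = (L - (i + 1)) + 1 by omega, pow_succ]
      ring
    rw [e, sum_children, mul_sum, mul_sum, ← sum_add_distrib]
    refine sum_le_sum fun k hk => ?_
    have hk' := mem_range.1 hk
    rw [SS]
    set Lp : ℝ := La (i + 1) k + ∑ s ∈ range T, La i (T * k + s) with hLp
    have hch : ∀ r < T, 0 ≤ La i (T * k + r) := fun r hr => (h2 i hi.le _ (hidx i hi k hk' r hr)).1
    have hLp0 : 0 ≤ Lp := add_nonneg (h2 (i + 1) hi k hk').1 (sum_nonneg fun r hr => hch r (mem_range.1 hr))
    have hb : ∀ r ∈ range T, SS K T X La i (T * k + r) ≤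
        (if K * Lp ≤ X i (T * k + r) then SS K T X La i (T * k + r) else 0) + K ^ 2 * (lam ^ i * Lp ^ 2) := by
      intro r hr
      split_ifs with hx
      · have : 0 ≤ K ^ 2 * (lam ^ i * Lp ^ 2) := by positivity
        linarith
      · have h5 := stepS i hi.le _ (hidx i hi k hk' r (mem_range.1 hr))
        have h6 : (max (X i (T * k + r)) 0) ^ 2 ≤ (K * Lp) ^ 2 := by
          have h7 : max (X i (T * k + r)) 0 ≤ K * Lp := max_le (not_le.1 hx).le (mul_nonneg hK0.le hLp0)
          exact pow_le_pow_left₀ (le_max_right _ _) h7 2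
        have h8 := mul_le_mul_of_nonneg_left h6 (by positivity : (0 : ℝ) ≤ lam ^ i)
        calc SS K T X La i (T * k + r) ≤ lam ^ i * (max (X i (T * k + r)) 0) ^ 2 := h5
          _ ≤ lam ^ i * (K * Lp) ^ 2 := h8
          _ = 0 + K ^ 2 * (lam ^ i * Lp ^ 2) := by ring
    refine (sum_le_sum hb).trans ?_
    rw [sum_add_distrib, sum_const, card_range, nsmul_eq_mul]
    apply le_of_eq
    ring
  -- telescope
  have tele : ∀ j ≤ L, ∑ k ∈ range (R * T ^ L), SS K T X La 0 k ≤
      ∑ k ∈ range (R * T ^ (L - j)), SS K T X La j k +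
      T * K ^ 2 * ∑ i ∈ range j, lam ^ i * ∑ k ∈ range (R * T ^ (L - (i + 1))),
        (La (i + 1) k + ∑ s ∈ range T, La i (T * k + s)) ^ 2 := by
    intro j
    induction j with
    | zero => intro _; simp
    | succ j ih =>
      intro hj
      have h5 := ih (by omega)
      have h6 := level j hj
      rw [sum_range_succ, mul_add]
      linarith
  have hfin := tele L le_rfl
  have htop : ∑ k ∈ range (R * T ^ (L - L)), SS K T X La L k ≤ lam ^ L * ∑ k ∈ range R, (max (X L k) 0) ^ 2 := by
    rw [Nat.sub_self, pow_zero, mul_one, mul_sum]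
    refine sum_le_sum fun k hk => stepS L le_rfl k ?_
    rw [Nat.sub_self, pow_zero, mul_one]
    exact mem_range.1 hk
  have hbase : ∑ k ∈ range (R * T ^ L), (max (X 0 k) 0) ^ 2 = ∑ k ∈ range (R * T ^ L), SS K T X La 0 k := by
    refine sum_congr rfl fun k _ => ?_
    rw [SS]
  rw [hbase]
  linarith

end Pool.Agent.W_7d29a1_XT
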