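import Pool.Agent.W_7d29a1_XT.Node
import Pool.Agent.W_7d29a1_X53.Levels
import Pool.Agent.W_7d29a1_SR.SubH

/-!
STORM X (MP_7d29a1_pr), assembly of (ES): the squares of the costs of the slabs at the place of the polymer, from the
forest lemma and its inputs. (helper27)
-/

namespace Pool.Agent.W_7d29a1_XT

open Finset MeasureTheory ProbabilityTheory
open Pool.Agent.W_7d29a1_F Pool.Agent.W_7d29a1_X Pool.Agent.W_7d29a1_X50 Pool.Agent.W_7d29a1_G
open Pool.Agent.W_7d29a1_SR (In)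

noncomputable section

variable {μ : Measure ℝ}

/-- (H1): the excess of the costs of the children of a window over the cost of the window; zero at the level `0`. -/
def Exs (μ : Measure ℝ) (T m : ℕ) : ℕ → ℕ → Env → Finset ℕ → ℝ
  | 0, _, _, _ => 0
  | i + 1, k, η, S => max (∑ r ∈ range T, XC μ ((T * k + r) * (T ^ i * m)) (T ^ i * m) η S -
      XC μ (k * (T ^ (i + 1) * m)) (T ^ (i + 1) * m) η S) 0

theorem Exs_nonneg (T m i k : ℕ) (η : Env) (S : Finset ℕ) : 0 ≤ Exs μ T m i k η S := by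
  cases i with
  | zero => exact le_rfl
  | succ i => exact le_max_right _ _

theorem Sub_Exs (T m i k : ℕ) (S : Finset ℕ) : Sub fun η => Exs μ T m i k η S := by
  cases i with
  | zero => exact Sub.const 0
  | succ i =>
    exact ((Sub.sum _ fun r _ => Sub_XC _ _ S).sub (Sub_XC _ _ S)).max (Sub.const 0)

/-- The error of a node. -/
def Err (μ : Measure ℝ) (C₁ c' : ℝ) (T m i k : ℕ) (η : Env) (S : Finset ℕ) : ℝ :=
  C₁ * EE μ (T ^ i * m) +
    max (XC μ (k * (T ^ i * m)) (T ^ i * m) η S -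
      C₁ * (EE μ (T ^ i * m) + Phn μ (T ^ i * m) (dsp (k * (T ^ i * m)) (T ^ i * m) S))) 0 +
    max (c' * Phn μ (T ^ i * m) (dsp (k * (T ^ i * m)) (T ^ i * m) S) - XC μ (k * (T ^ i * m)) (T ^ i * m) η S) 0 +
    Exs μ T m i k η S

theorem Sub_Err (C₁ c' : ℝ) (T m i k : ℕ) (S : Finset ℕ) : Sub fun η => Err μ C₁ c' T m i k η S :=
  (((Sub.const _).add (((Sub_XC _ _ S).sub (Sub.const _)).max (Sub.const 0))).add
    (((Sub.const _).sub (Sub_XC _ _ S)).max (Sub.const 0))).add (Sub_Exs T m i k S)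

variable [IsProbabilityMeasure μ]

/-- The unlucky part of a block at the place of the polymer. -/
theorem MG_unl (hμ : Pool.Agent.W_7d29a1_h47.EM μ) {C₁ K : ℝ}
    (hK : ∀ m : ℕ, 1 ≤ m → ∀ y : ℤ, 0 ≤ y → y ≤ m →
      ∫ η, (max (X μ 0 η 0 m y - C₁ * (EE μ m + m * J μ (((y : ℝ) - m / 2) / m))) 0) ^ 2 ∂(law μ) ≤ K * EE μ m ^ 2)
    {N a n : ℕ} (hn : 1 ≤ n) (h : a + n ≤ N) :
    MG μ N (fun η S => (max (XC μ a n η S - C₁ * (EE μ n + Phn μ n (dsp a n S))) 0) ^ 2) ≤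
      3 * (K * EE μ n ^ 2) + 4 := by
  have h1 := MG_block (μ := μ) h (fun η x y => (max (X μ 0 η ((a : ℤ), x) n y - C₁ * (EE μ n + Phn μ n y)) 0) ^ 2)
  have h2 := Pool.Agent.W_7d29a1_X97.esu (μ := μ) (s := 0) hμ a n (N - (a + n))
    (fun y => C₁ * (EE μ n + Phn μ n y)) (B := K * EE μ n ^ 2) (fun y h0 h1 => hK n hn y h0 h1)
  exact (le_of_eq h1).trans h2

omit [IsProbabilityMeasure μ] in
/-- The cost of a block at the place of the polymer. -/
theorem MG_cost {N a n : ℕ} (h : a + n ≤ N) :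
    MG μ N (fun η S => (max (XC μ a n η S) 0) ^ 2) =
      ∫ η, ∑ q ∈ Pr a n, Gn μ 0 η a n (N - (a + n)) q * (max (X μ 0 η ((a : ℤ), q.1) n q.2) 0) ^ 2 ∂(law μ) :=
  MG_block (μ := μ) h (fun η x y => (max (X μ 0 η ((a : ℤ), x) n y) 0) ^ 2)

omit [IsProbabilityMeasure μ] in
/-- The luck of a block at the place of the polymer. -/
theorem MG_luck (c' : ℝ) {N a n : ℕ} (h : a + n ≤ N) :
    MG μ N (fun η S => (max (c' * Phn μ n (dsp a n S) - XC μ a n η S) 0) ^ 2) =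
      ∫ η, ∑ q ∈ Pr a n, Gn μ 0 η a n (N - (a + n)) q *
        (max (c' * Phn μ n q.2 - X μ 0 η ((a : ℤ), q.1) n q.2) 0) ^ 2 ∂(law μ) :=
  MG_block (μ := μ) h (fun η x y => (max (c' * Phn μ n y - X μ 0 η ((a : ℤ), x) n y) 0) ^ 2)

theorem int_sq (hμ : Pool.Agent.W_7d29a1_h47.EM μ) {f : Env → ℝ} (hf : Sub f) : Integrable (fun η => f η ^ 2) (law μ) :=
  hf.sq_integrable hμ

/-- (ES) in the form of the squares of the positive parts of the costs of the slabs, at the place of the polymer. -/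
theorem es_cost {c C : ℝ} {n₀ : ℕ} (h : In μ c C n₀) (hD : Dj μ)
    -- (I3)
    {c' Cl : ℝ} {i₁ : ℕ} (hc' : 0 < c') (hCl : 0 ≤ Cl)
    (hL : ∀ i N : ℕ, i₁ ≤ i → 2 ^ i ≤ N → Real.log N ≤ EE μ (2 ^ i) →
      ∑ k ∈ range (N / 2 ^ i), ∫ η, ∑ q ∈ Pr (k * 2 ^ i) (2 ^ i),
        Gn μ 0 η (k * 2 ^ i) (2 ^ i) (N - (k * 2 ^ i + 2 ^ i)) q *
        (max (c' * Phn μ (2 ^ i) q.2 - X μ 0 η (((k * 2 ^ i : ℕ) : ℤ), q.1) (2 ^ i) q.2) 0) ^ 2 ∂(law μ) ≤
        Cl * (N / ((2 ^ i : ℕ) : ℝ)) * EE μ (2 ^ i) ^ 2)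
    -- (I4)
    {Cr : ℝ} {n₂ : ℕ} (hCr : 0 ≤ Cr)
    (hR : ∀ a n k : ℕ, n₂ ≤ n → ∫ η, ∑ q ∈ Pr a n, Gn μ 0 η a n k q *
      (max (X μ 0 η ((a : ℤ), q.1) n q.2) 0) ^ 2 ∂(law μ) ≤ Cr * EE μ (a + n + k) ^ 2)
    -- (H1)
    {Ce : ℝ} (hCe : 0 ≤ Ce)
    (hE : ∀ (T : ℕ) (η : Env) (N a d : ℕ), 1 ≤ T → 1 ≤ d → a + T * d ≤ N →
      ∑ S ∈ (range N).powerset, GS μ 0 η N S *
        (max (∑ r ∈ range T, XC μ (a + r * d) d η S - XC μ a (T * d) η S) 0) ^ 2 ≤
      Ce * (T : ℝ) ^ 2 * (Real.log N + 1) ^ 2)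
    -- (H3)
    {C₃ : ℝ} (hC₃ : 0 < C₃)
    (hJ : ∀ ep : ℝ, 0 < ep → ∃ t : ℕ, 1 ≤ t ∧ ∀ v : ℕ → ℝ, (∀ r < 2 ^ t, |v r| ≤ 1 / 2) → ∀ r < 2 ^ t,
      ((2 ^ t : ℕ) : ℝ) * J μ ((∑ r ∈ range (2 ^ t), v r) / ((2 ^ t : ℕ) : ℝ)) ≤
        ep * J μ (v r) + C₃ * ∑ s ∈ (range (2 ^ t)).erase r, J μ (v s)) :
    ∃ (B : ℝ) (j₀ : ℕ), 0 ≤ B ∧ ∀ j N : ℕ, j₀ ≤ j → 2 ^ j ≤ N → Real.log N ≤ EE μ (2 ^ j) →
      ∑ k ∈ range (N / 2 ^ j), ∫ η, ∑ q ∈ Pr (k * 2 ^ j) (2 ^ j),
        Gn μ 0 η (k * 2 ^ j) (2 ^ j) (N - (k * 2 ^ j + 2 ^ j)) q *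
        (max (X μ 0 η (((k * 2 ^ j : ℕ) : ℤ), q.1) (2 ^ j) q.2) 0) ^ 2 ∂(law μ) ≤
        B * (N * (EE μ (2 ^ j) ^ 2 / ((2 ^ j : ℕ) : ℝ))) := by
  obtain ⟨C₁, K, hC₁, hK, hU⟩ := excess_sq h hD
  obtain ⟨A, hA, n₃, hn₃, hSub⟩ := Pool.Agent.W_7d29a1_SR.sub_half h
  obtain ⟨ep, hep, hcore⟩ := Pool.Agent.W_7d29a1_X53.es_core hc' hC₁ hC₃
  obtain ⟨t, ht, hJt⟩ := hJ ep hep
  obtain ⟨T, hT⟩ : ∃ T : ℕ, T = 2 ^ t := ⟨_, rfl⟩
  have hT2 : 2 ≤ T := by
    rw [hT]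
    calc 2 = 2 ^ 1 := rfl
      _ ≤ 2 ^ t := Nat.pow_le_pow_right (by norm_num) ht
  rw [← hT] at hJt
  have hTpos : 0 < T := by omega
  obtain ⟨CL, hCL⟩ : ∃ CL : ℝ, CL = 4 * (C₁ ^ 2 + (3 * K + 4) + Cl + 4 * Ce * (T : ℝ) ^ 2) := ⟨_, rfl⟩
  have hCL0 : 0 ≤ CL := by
    rw [hCL]
    positivity
  obtain ⟨B, hB, hmain⟩ := hcore T A Cr CL hT2 hA.le hCr hCL0
  refine ⟨B, max i₁ (max n₂ n₃), hB, fun j N hj hjN hlog => ?_⟩
  have hj1 : i₁ ≤ j := (le_max_left _ _).trans hj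
  have hj2 : n₂ ≤ j := ((le_max_left _ _).trans (le_max_right _ _)).trans hj
  have hj3 : n₃ ≤ j := ((le_max_right _ _).trans (le_max_right _ _)).trans hj
  obtain ⟨m, hm⟩ : ∃ m : ℕ, m = 2 ^ j := ⟨_, rfl⟩
  have hm1 : 1 ≤ m := by rw [hm]; exact Nat.one_le_two_pow
  have hjm : j ≤ m := by rw [hm]; exact (Nat.lt_two_pow_self).le
  have hn2m : n₂ ≤ m := hj2.trans hjm
  have hn3m : n₃ ≤ m := hj3.trans hjm
  have hmN : m ≤ N := by rw [hm]; exact hjN
  have hTm : ∀ i, 1 ≤ T ^ i * m := fun i => Nat.mul_pos (Nat.pow_pos hTpos) hm1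
  have hmTm : ∀ i, m ≤ T ^ i * m := fun i => Nat.le_mul_of_pos_left m (Nat.pow_pos hTpos)
  have hTm2 : ∀ i, T ^ i * m = 2 ^ (t * i + j) := fun i => by
    rw [hT, hm, ← pow_mul, ← pow_add]
  have hfit : ∀ i k, k < N / m / T ^ i → k * (T ^ i * m) + T ^ i * m ≤ N := fun i k hk => by
    have := Pool.Agent.W_7d29a1_X53.window_fits hk
    calc k * (T ^ i * m) + T ^ i * m = (k + 1) * (T ^ i * m) := by ring
      _ ≤ N := this
  have hEM := h.em
  -- integrability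
  have iX : ∀ i k, ∀ S ∈ (range N).powerset,
      Integrable (fun η => (max (XC μ (k * (T ^ i * m)) (T ^ i * m) η S) 0) ^ 2) (law μ) := fun i k S _ =>
    int_sq hEM ((Sub_XC _ _ S).max (Sub.const 0))
  have iL : ∀ i k, ∀ S ∈ (range N).powerset, Integrable (fun η => Err μ C₁ c' T m i k η S ^ 2) (law μ) :=
    fun i k S _ => int_sq hEM (Sub_Err C₁ c' T m i k S)
  have key := hmain (law μ) (range N).powerset (fun η S => GS μ 0 η N S) (EE μ) m N
    (fun i k η S => XC μ (k * (T ^ i * m)) (T ^ i * m) η S)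
    (fun i k _ S => Phn μ (T ^ i * m) (dsp (k * (T ^ i * m)) (T ^ i * m) S))
    (fun i k η S => Err μ C₁ c' T m i k η S) hm1 hmN (fun n hn => hSub m n hn3m hn) (fun η S _ => GS_nonneg η N S)
    ?_ ?_ ?_ (fun i k _ => integrable_MG (iX i k)) (fun i k _ => integrable_MG (iL i k)) ?_ ?_
  · -- the conclusion
    have e1 : ∀ k ∈ range (N / m), ∫ η, ∑ S ∈ (range N).powerset, GS μ 0 η N S *
        (max (XC μ (k * (T ^ 0 * m)) (T ^ 0 * m) η S) 0) ^ 2 ∂(law μ) =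
        ∫ η, ∑ q ∈ Pr (k * m) m, Gn μ 0 η (k * m) m (N - (k * m + m)) q *
          (max (X μ 0 η (((k * m : ℕ) : ℤ), q.1) m q.2) 0) ^ 2 ∂(law μ) := by
      intro k hk
      have h0 : k < N / m / T ^ 0 := by
        rw [pow_zero, Nat.div_one]
        exact mem_range.1 hk
      have h1 := hfit 0 k h0
      rw [pow_zero, one_mul] at h1 ⊢
      exact MG_cost h1
    rw [sum_congr rfl e1, hm] at key
    exact key
  · -- the bounds of a node
    intro η S hS i k hk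
    have hn := hTm i
    have hPh := Phn_nonneg hEM hn (dsp_nonneg (k * (T ^ i * m)) (T ^ i * m) S) (dsp_le _ _ _)
    have hE0 : 0 < EE μ (T ^ i * m) := EE_pos _
    have h1 := Exs_nonneg (μ := μ) T m i k η S
    obtain ⟨P, hP⟩ : ∃ P : ℝ, P = Phn μ (T ^ i * m) (dsp (k * (T ^ i * m)) (T ^ i * m) S) := ⟨_, rfl⟩
    obtain ⟨Y, hY⟩ : ∃ Y : ℝ, Y = XC μ (k * (T ^ i * m)) (T ^ i * m) η S := ⟨_, rfl⟩
    obtain ⟨F, hF⟩ : ∃ F : ℝ, F = EE μ (T ^ i * m) := ⟨_, rfl⟩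
    have hErr : Err μ C₁ c' T m i k η S = C₁ * F + max (Y - C₁ * (F + P)) 0 + max (c' * P - Y) 0 +
        Exs μ T m i k η S := by
      unfold Err
      rw [← hP, ← hY, ← hF]
    rw [← hP] at hPh
    rw [← hF] at hE0
    have hCF : 0 ≤ C₁ * F := mul_nonneg hC₁.le hE0.le
    have h2 := le_max_left (Y - C₁ * (F + P)) 0
    have h3 := le_max_right (Y - C₁ * (F + P)) 0
    have h4 := le_max_left (c' * P - Y) 0
    have h5 := le_max_right (c' * P - Y) 0
    beta_reduce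
    rw [← hP, ← hY, hErr]
    refine ⟨by linarith, hPh, by linarith, ?_⟩
    linarith
  · -- (H1)
    intro η S _ i k _
    beta_reduce
    have h1 : Exs μ T m (i + 1) k η S ≤ Err μ C₁ c' T m (i + 1) k η S := by
      unfold Err
      have hE0 : 0 < EE μ (T ^ (i + 1) * m) := EE_pos _
      have h2 : 0 ≤ C₁ * EE μ (T ^ (i + 1) * m) := mul_nonneg hC₁.le hE0.le
      have h3 := le_max_right (XC μ (k * (T ^ (i + 1) * m)) (T ^ (i + 1) * m) η S -
        C₁ * (EE μ (T ^ (i + 1) * m) + Phn μ (T ^ (i + 1) * m) (dsp (k * (T ^ (i + 1) * m)) (T ^ (i + 1) * m) S))) 0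
      have h4 := le_max_right (c' * Phn μ (T ^ (i + 1) * m) (dsp (k * (T ^ (i + 1) * m)) (T ^ (i + 1) * m) S) -
        XC μ (k * (T ^ (i + 1) * m)) (T ^ (i + 1) * m) η S) 0
      linarith
    have h2 : ∑ r ∈ range T, XC μ ((T * k + r) * (T ^ i * m)) (T ^ i * m) η S -
        XC μ (k * (T ^ (i + 1) * m)) (T ^ (i + 1) * m) η S ≤ Exs μ T m (i + 1) k η S := le_max_left _ _
    linarith
  · -- (H3)
    intro η S _ i k _ r hr
    beta_reduce
    have h1 := Phn_split (μ := μ) hTpos hJt (hTm i) (k * (T ^ (i + 1) * m)) S hr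
    have e1 : T * (T ^ i * m) = T ^ (i + 1) * m := by ring
    have e2 : ∀ s, k * (T ^ (i + 1) * m) + s * (T ^ i * m) = (T * k + s) * (T ^ i * m) := fun s => by ring
    rw [e1, e2] at h1
    simp only [e2] at h1
    exact h1
  · -- roots
    intro i k hk
    have h1 := hfit i k hk
    have h2 := hR (k * (T ^ i * m)) (T ^ i * m) (N - (k * (T ^ i * m) + T ^ i * m)) (hn2m.trans (hmTm i))
    rw [show k * (T ^ i * m) + T ^ i * m + (N - (k * (T ^ i * m) + T ^ i * m)) = N by omega] at h2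
    exact (le_of_eq (MG_cost h1)).trans h2
  · -- levels
    intro i hi
    obtain ⟨n, hn⟩ : ∃ n : ℕ, n = T ^ i * m := ⟨_, rfl⟩
    have hn1 : 1 ≤ n := by rw [hn]; exact hTm i
    have hmn : m ≤ n := by rw [hn]; exact hmTm i
    have hnN : n ≤ N := by rw [hn]; exact hi
    have hn2 : n = 2 ^ (t * i + j) := by rw [hn, hTm2]
    have hE1 : 1 ≤ EE μ n := one_le_EE n
    have hEmn : EE μ m ≤ EE μ n := EE_mono hmn
    have hlogn : Real.log N ≤ EE μ n := (hm ▸ hlog).trans hEmn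
    have hcount : N / m / T ^ i = N / n := by
      rw [Nat.div_div_eq_div_mul, hn]
      congr 1
      ring
    rw [hcount, ← hn]
    have hnR : (0 : ℝ) < n := by exact_mod_cast hn1
    have hcard : ((N / n : ℕ) : ℝ) ≤ N / n := Nat.cast_div_le
    -- one node
    have hnode : ∀ k ∈ range (N / n), MG μ N (fun η S => Err μ C₁ c' T m i k η S ^ 2) ≤
        4 * ((C₁ * EE μ n) ^ 2 + (3 * (K * EE μ n ^ 2) + 4) +
          MG μ N (fun η S => (max (c' * Phn μ n (dsp (k * n) n S) - XC μ (k * n) n η S) 0) ^ 2) +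
          4 * Ce * (T : ℝ) ^ 2 * EE μ n ^ 2) := by
      intro k hk
      rw [mem_range] at hk
      have hk' : k < N / m / T ^ i := by rw [hcount]; exact hk
      have hf := hfit i k hk'
      rw [← hn] at hf
      have jc : ∀ S ∈ (range N).powerset, Integrable (fun _ : Env => (C₁ * EE μ n) ^ 2) (law μ) :=
        fun _ _ => integrable_const _
      have ju : ∀ S ∈ (range N).powerset, Integrable (fun η =>
          (max (XC μ (k * n) n η S - C₁ * (EE μ n + Phn μ n (dsp (k * n) n S))) 0) ^ 2) (law μ) :=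
        fun S _ => int_sq hEM (((Sub_XC _ _ S).sub (Sub.const _)).max (Sub.const 0))
      have jl : ∀ S ∈ (range N).powerset, Integrable (fun η =>
          (max (c' * Phn μ n (dsp (k * n) n S) - XC μ (k * n) n η S) 0) ^ 2) (law μ) :=
        fun S _ => int_sq hEM (((Sub.const _).sub (Sub_XC _ _ S)).max (Sub.const 0))
      have je : ∀ S ∈ (range N).powerset, Integrable (fun η => Exs μ T m i k η S ^ 2) (law μ) :=
        fun S _ => int_sq hEM (Sub_Exs T m i k S)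
      have h1 : MG μ N (fun η S => Err μ C₁ c' T m i k η S ^ 2) ≤ MG μ N (fun η S => 4 * ((((C₁ * EE μ n) ^ 2 +
          (max (XC μ (k * n) n η S - C₁ * (EE μ n + Phn μ n (dsp (k * n) n S))) 0) ^ 2) +
          (max (c' * Phn μ n (dsp (k * n) n S) - XC μ (k * n) n η S) 0) ^ 2) + Exs μ T m i k η S ^ 2)) := by
        refine MG_mono (fun S _ => int_sq hEM (Sub_Err C₁ c' T m i k S)) (fun S hS =>
          ((((jc S hS).add (ju S hS)).add (jl S hS)).add (je S hS)).const_mul 4) fun η S _ => ?_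
        unfold Err
        rw [← hn]
        nlinarith [sq_nonneg (C₁ * EE μ n - max (XC μ (k * n) n η S - C₁ * (EE μ n + Phn μ n (dsp (k * n) n S))) 0),
          sq_nonneg (C₁ * EE μ n - max (c' * Phn μ n (dsp (k * n) n S) - XC μ (k * n) n η S) 0),
          sq_nonneg (C₁ * EE μ n - Exs μ T m i k η S),
          sq_nonneg (max (XC μ (k * n) n η S - C₁ * (EE μ n + Phn μ n (dsp (k * n) n S))) 0 -
            max (c' * Phn μ n (dsp (k * n) n S) - XC μ (k * n) n η S) 0),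
          sq_nonneg (max (XC μ (k * n) n η S - C₁ * (EE μ n + Phn μ n (dsp (k * n) n S))) 0 - Exs μ T m i k η S),
          sq_nonneg (max (c' * Phn μ n (dsp (k * n) n S) - XC μ (k * n) n η S) 0 - Exs μ T m i k η S)]
      refine h1.trans ?_
      rw [MG_const_mul]
      refine mul_le_mul_of_nonneg_left ?_ (by norm_num)
      have jcu : ∀ S ∈ (range N).powerset, Integrable (fun η => (C₁ * EE μ n) ^ 2 +
          (max (XC μ (k * n) n η S - C₁ * (EE μ n + Phn μ n (dsp (k * n) n S))) 0) ^ 2) (law μ) :=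
        fun S hS => (jc S hS).add (ju S hS)
      have jcul : ∀ S ∈ (range N).powerset, Integrable (fun η => (C₁ * EE μ n) ^ 2 +
          (max (XC μ (k * n) n η S - C₁ * (EE μ n + Phn μ n (dsp (k * n) n S))) 0) ^ 2 +
          (max (c' * Phn μ n (dsp (k * n) n S) - XC μ (k * n) n η S) 0) ^ 2) (law μ) :=
        fun S hS => (jcu S hS).add (jl S hS)
      rw [MG_add jcul je, MG_add jcu jl, MG_add jc ju, MG_const]
      have hu := MG_unl hEM hU hn1 hf
      -- the excess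
      have he : MG μ N (fun η S => Exs μ T m i k η S ^ 2) ≤ 4 * Ce * (T : ℝ) ^ 2 * EE μ n ^ 2 := by
        rcases Nat.eq_zero_or_pos i with hi0 | hi0
        · subst hi0
          have h2 : (fun (η : Env) (S : Finset ℕ) => Exs μ T m 0 k η S ^ 2) = fun _ _ => (0 : ℝ) := by
            funext η S
            show (0 : ℝ) ^ 2 = 0
            norm_num
          rw [h2, MG_const]
          positivity
        · obtain ⟨l, rfl⟩ : ∃ l, i = l + 1 := ⟨i - 1, by omega⟩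
          refine MG_le_of_pt je fun η => ?_
          have hd : 1 ≤ T ^ l * m := hTm l
          have e1 : T * (T ^ l * m) = n := by rw [hn]; ring
          have h2 := hE T η N (k * n) (T ^ l * m) (by omega) hd (by rw [e1]; exact hf)
          have e2 : ∀ r, k * n + r * (T ^ l * m) = (T * k + r) * (T ^ l * m) := fun r => by
            rw [hn]
            ring
          simp only [e2, e1] at h2
          have h3 : ∑ S ∈ (range N).powerset, GS μ 0 η N S * Exs μ T m (l + 1) k η S ^ 2 ≤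
              Ce * (T : ℝ) ^ 2 * (Real.log N + 1) ^ 2 := by
            refine le_trans (le_of_eq (sum_congr rfl fun S _ => ?_)) h2
            show GS μ 0 η N S * (max (∑ r ∈ range T, XC μ ((T * k + r) * (T ^ l * m)) (T ^ l * m) η S -
              XC μ (k * (T ^ (l + 1) * m)) (T ^ (l + 1) * m) η S) 0) ^ 2 = _
            rw [← hn]
          refine h3.trans ?_
          have h4 : 0 ≤ Real.log N := Real.log_natCast_nonneg N
          have h5 : (Real.log N + 1) ^ 2 ≤ (2 * EE μ n) ^ 2 := pow_le_pow_left₀ (by linarith) (by linarith) 2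
          calc Ce * (T : ℝ) ^ 2 * (Real.log N + 1) ^ 2 ≤ Ce * (T : ℝ) ^ 2 * (2 * EE μ n) ^ 2 :=
                mul_le_mul_of_nonneg_left h5 (by positivity)
            _ = 4 * Ce * (T : ℝ) ^ 2 * EE μ n ^ 2 := by ring
      linarith
    have hsum := sum_le_sum hnode
    -- the lucks
    have hluck : ∑ k ∈ range (N / n), MG μ N (fun η S =>
        (max (c' * Phn μ n (dsp (k * n) n S) - XC μ (k * n) n η S) 0) ^ 2) ≤
        Cl * (N / (n : ℝ)) * EE μ n ^ 2 := by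
      have h1 := hL (t * i + j) N (by omega) (by rw [← hn2]; exact hnN) (by rw [← hn2]; exact hlogn)
      rw [← hn2] at h1
      refine le_trans (le_of_eq (sum_congr rfl fun k hk => ?_)) h1
      rw [mem_range] at hk
      have hk' : k < N / m / T ^ i := by rw [hcount]; exact hk
      have hf := hfit i k hk'
      rw [← hn] at hf
      exact MG_luck c' hf
    rw [← mul_sum, sum_add_distrib, sum_add_distrib, sum_const, sum_const, card_range, nsmul_eq_mul,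
      nsmul_eq_mul] at hsum
    refine hsum.trans ?_
    have hE2 : 0 ≤ EE μ n ^ 2 := sq_nonneg _
    have hE2' : 1 ≤ EE μ n ^ 2 := one_le_pow₀ hE1
    have g1 : ((N / n : ℕ) : ℝ) * ((C₁ * EE μ n) ^ 2 + (3 * (K * EE μ n ^ 2) + 4)) ≤
        (N / n) * ((C₁ ^ 2 + (3 * K + 4)) * EE μ n ^ 2) := by
      refine mul_le_mul hcard ?_ (by positivity) (by positivity)
      nlinarith
    have g2 : ((N / n : ℕ) : ℝ) * (4 * Ce * (T : ℝ) ^ 2 * EE μ n ^ 2) ≤
        (N / n) * (4 * Ce * (T : ℝ) ^ 2 * EE μ n ^ 2) :=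
      mul_le_mul_of_nonneg_right hcard (by positivity)
    rw [hCL]
    have g3 : 4 * (((N / n : ℕ) : ℝ) * ((C₁ * EE μ n) ^ 2 + (3 * (K * EE μ n ^ 2) + 4)) +
        ∑ k ∈ range (N / n), MG μ N (fun η S =>
          (max (c' * Phn μ n (dsp (k * n) n S) - XC μ (k * n) n η S) 0) ^ 2) +
        ((N / n : ℕ) : ℝ) * (4 * Ce * (T : ℝ) ^ 2 * EE μ n ^ 2)) ≤
        4 * ((N / n) * ((C₁ ^ 2 + (3 * K + 4)) * EE μ n ^ 2) + Cl * (N / (n : ℝ)) * EE μ n ^ 2 +
        (N / n) * (4 * Ce * (T : ℝ) ^ 2 * EE μ n ^ 2)) := by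
      linarith
    refine g3.trans (le_of_eq ?_)
    ring

end

end Pool.Agent.W_7d29a1_XT
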